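import Pool.Agent.H66.AVG.Evl
import Pool.Agent.H57.AVG.C1b

/-!
# The correction of the path of the target by a near place

`pru`: the rounded path of the place `u` over the charts of the window `w`, a function of its near
code; `rsu`: the path of `u` minus the rounded path, written in the window `W`; `RU`: this rest times a
polynomial `mC`. The properties of `R` in `PrN` for `RU`. `plW`: a polynomial in the time of a window,
written in a later window.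
-/

set_option autoImplicit false

namespace Pool.AVG66

open Finset Real MvPolynomial
open Pool.Agent.H49.Ent Pool.Agent.H32.Dense Pool.STK Pool.KA Pool.KSAT Pool.K2S Pool.PB Pool.S6C
open Pool.GEN Pool.CHT Pool.CHX Pool.ISO Pool.LA91 Pool.AVG71 Pool.AVG5 Pool.AVG57 Pool.D2F2
open Pool.PB.Trl (rt rt_mem t_rt)
open Pool.D2R (hgt gnh GrdE chs)
open Pool.KVA (MI)

variable {m J : ℕ}

/-! ### Polynomials -/

theorem coeff_mul_le {P Q : Polynomial ℝ} {K : ℕ} {U δ : ℝ} (hQ : Q.natDegree ≤ K) (hU : 0 ≤ U)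
    (hδ : 0 ≤ δ) (hP : ∀ a, |P.coeff a| ≤ U) (hQδ : ∀ a, |Q.coeff a| ≤ δ) (a : ℕ) :
    |(P * Q).coeff a| ≤ (K + 1) * (U * δ) := by
  rw [mul_comm P Q, Polynomial.coeff_mul, Finset.Nat.sum_antidiagonal_eq_sum_range_succ_mk]
  refine (Finset.abs_sum_le_sum_abs _ _).trans ?_
  have h1 : ∀ x ∈ range a.succ, |Q.coeff x * P.coeff (a - x)| ≤ if x ≤ K then U * δ else 0 := by
    intro x _
    rw [abs_mul]
    split_ifs with h
    · rw [mul_comm]
      exact mul_le_mul (hP _) (hQδ _) (abs_nonneg _) hU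
    · rw [Polynomial.coeff_eq_zero_of_natDegree_lt (by omega), abs_zero, zero_mul]
  refine (Finset.sum_le_sum h1).trans ?_
  rw [← Finset.sum_filter, Finset.sum_const, nsmul_eq_mul]
  refine mul_le_mul_of_nonneg_right ?_ (by positivity)
  have h2 : ((range a.succ).filter (fun x => x ≤ K)).card ≤ (range (K + 1)).card :=
    Finset.card_le_card fun x hx => by
      rw [Finset.mem_filter] at hx
      rw [mem_range]
      omega
  rw [card_range] at h2
  exact_mod_cast h2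

theorem eval_le_of {P : Polynomial ℝ} {K : ℕ} {U θ : ℝ} (hP : P.natDegree ≤ K)
    (h01 : 0 ≤ θ ∧ θ ≤ 1) (h : ∀ a, |P.coeff a| ≤ U) : |P.eval θ| ≤ (K + 1) * U := by
  rw [AD.eval_fin hP]
  refine (Finset.abs_sum_le_sum_abs _ _).trans ?_
  have h1 : ∀ a ∈ (univ : Finset (Fin (K + 1))), |P.coeff (a : ℕ) * θ ^ (a : ℕ)| ≤ U := by
    intro a _
    rw [abs_mul, abs_of_nonneg (pow_nonneg h01.1 _)]
    calc _ ≤ U * 1 := mul_le_mul (h _) (pow_le_one₀ h01.1 h01.2) (pow_nonneg h01.1 _)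
          ((abs_nonneg _).trans (h 0))
      _ = U := mul_one _
  refine (Finset.sum_le_sum h1).trans ?_
  rw [Finset.sum_const, Finset.card_univ, Fintype.card_fin, nsmul_eq_mul]
  push_cast
  exact le_rfl

/-! ### The time of a window in a later window -/

theorem rt_up (F : Fam m J) {w W : ℕ} (h : w ≤ W) (hW : W ≤ J) (ω : F.Ω) :
    rt F w ω = ofs F w W ω + 1 / 2 ^ (W - w) * rt F W ω := by
  rw [← tw_rt F hW, ← tw_rt F (h.trans hW)]
  have e1 : (2 : ℝ) ^ W = 2 ^ (W - w) * 2 ^ w := by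
    rw [← pow_add, Nat.sub_add_cancel h]
  show 2 ^ w * F.t ω - (F.T1 w ω : ℝ) = (F.T1 W ω : ℝ) / 2 ^ (W - w) - (F.T1 w ω : ℝ) +
    1 / 2 ^ (W - w) * (2 ^ W * F.t ω - (F.T1 W ω : ℝ))
  rw [e1]
  have h2 : (0 : ℝ) < 2 ^ (W - w) := by positivity
  field_simp
  ring

/-- A polynomial in the time of the window `w`, written in the window `W`. -/
noncomputable def plW (F : Fam m J) (w W : ℕ) (P : Polynomial ℝ) (ω : F.Ω) : Polynomial ℝ :=
  (Polynomial.taylor (ofs F w W ω) P).comp (Polynomial.C (1 / 2 ^ (W - w)) * Polynomial.X)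

theorem plW_eval (F : Fam m J) {w W : ℕ} (h : w ≤ W) (hW : W ≤ J) (P : Polynomial ℝ) (ω : F.Ω) :
    (plW F w W P ω).eval (rt F W ω) = P.eval (rt F w ω) := by
  have h2 : (Polynomial.C (1 / 2 ^ (W - w) : ℝ) * Polynomial.X).eval (rt F W ω) =
      1 / 2 ^ (W - w) * rt F W ω := by
    simp
  unfold plW
  rw [Polynomial.eval_comp, h2, Polynomial.taylor_eval, rt_up F h hW, add_comm]

theorem plW_coeff_eq (F : Fam m J) {w W : ℕ} (P : Polynomial ℝ) (ω : F.Ω) (a : ℕ) :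
    (plW F w W P ω).coeff a = (Polynomial.taylor (ofs F w W ω) P).coeff a *
      (1 / 2 ^ (W - w)) ^ a := by
  unfold plW
  rw [Polynomial.comp_C_mul_X_coeff]

theorem plW_deg (F : Fam m J) {w W K : ℕ} {P : Polynomial ℝ} (hP : P.natDegree ≤ K) (ω : F.Ω) :
    (plW F w W P ω).natDegree ≤ K := by
  rw [Polynomial.natDegree_le_iff_coeff_eq_zero]
  intro a ha
  rw [plW_coeff_eq, Polynomial.coeff_eq_zero_of_natDegree_lt, zero_mul]
  rw [Polynomial.natDegree_taylor]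
  omega

theorem plW_coeff (F : Fam m J) {w W K : ℕ} (h : w ≤ W) (hW : W ≤ J) {P : Polynomial ℝ}
    (hP : P.natDegree ≤ K) {U : ℝ} (hU : ∀ a, |P.coeff a| ≤ U) (ω : F.Ω) (a : ℕ) :
    |(plW F w W P ω).coeff a| ≤ (K + 1) * 2 ^ K * U := by
  have hU0 : 0 ≤ U := (abs_nonneg _).trans (hU 0)
  rw [plW_coeff_eq, abs_mul]
  have hm := ofs_mem F h hW ω
  have h1 := tay_coef hP (a := a) (s := ofs F w W ω)
    (by rw [abs_of_nonneg hm.1]; exact hm.2.le) hU0 fun b _ => hU b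
  have h3 : |((1 : ℝ) / 2 ^ (W - w)) ^ a| ≤ 1 := by
    rw [abs_of_nonneg (by positivity)]
    refine pow_le_one₀ (by positivity) ?_
    rw [div_le_one (by positivity)]
    exact one_le_pow₀ (by norm_num)
  calc _ ≤ (K + 1) * 2 ^ K * U * 1 := mul_le_mul h1 h3 (abs_nonneg _) (by positivity)
    _ = _ := mul_one _

theorem plW_of (F : Fam m J) {w W : ℕ} (h : w ≤ W) (hW : W ≤ J) (P : Polynomial ℝ) {ω ν : F.Ω}
    (e : F.T1 W ω = F.T1 W ν) : plW F w W P ω = plW F w W P ν := by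
  unfold plW
  rw [ofs_of F h hW e]

theorem plW_sub (F : Fam m J) {w W : ℕ} (P Q : Polynomial ℝ) (ω : F.Ω) :
    plW F w W (P - Q) ω = plW F w W P ω - plW F w W Q ω := by
  unfold plW
  rw [map_sub, Polynomial.sub_comp]

/-! ### The rounded path -/

/-- **The rounded path** of the place `u` over the charts of the window `w`. -/
noncomputable def pru (F : Fam m J) (c : ℕ → Fin m) (u w K N : ℕ)
    (H : LnT F → ℕ → MvPolynomial (Option (Fin m)) ℝ) (ω : F.Ω) : Polynomial ℝ :=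
  ∑ a : Fin (K + 1), Polynomial.C ((cod F w (fun s => H s u) (c u) N 0 K ω a : ℝ) / 2 ^ N) *
    Polynomial.X ^ (a : ℕ)

/-- **The path of `u` minus the rounded path**, at the window `W`, in units `2 ^ -(γ u + q)`. -/
noncomputable def rsu (F : Fam m J) (c : ℕ → Fin m) (u q w W K N : ℕ) (γ : ℕ → ℕ)
    (H : LnT F → ℕ → MvPolynomial (Option (Fin m)) ℝ) (ω : F.Ω) : Polynomial ℝ :=
  Polynomial.C (2 ^ (γ u + q)) * dv W (fun s (_ : Fin m) => H (upw w W s) u) (c u) (slam F W ω) -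
    Polynomial.C (2 ^ (γ u + q)) * plW F w W (pru F c u w K N H ω) ω

/-- **The correction** of the path of the target. -/
noncomputable def RU (F : Fam m J) (c : ℕ → Fin m) (u q w W K N : ℕ) (γ : ℕ → ℕ)
    (H : LnT F → ℕ → MvPolynomial (Option (Fin m)) ℝ) (mC : F.Ω → Polynomial ℝ) (ω : F.Ω) :
    Polynomial ℝ :=
  mC ω * rsu F c u q w W K N γ H ω

section

variable {F : Fam m J} {c : ℕ → Fin m} {u q w W K N D : ℕ} {γ : ℕ → ℕ}
  {H : LnT F → ℕ → MvPolynomial (Option (Fin m)) ℝ} {mC : F.Ω → Polynomial ℝ}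
  {B : F.Ω → Prop} {G₀ : PtT F → ℕ → MvPolynomial (Option (Fin m)) ℝ}

theorem pru_deg (ω : F.Ω) : (pru F c u w K N H ω).natDegree ≤ K := by
  unfold pru
  refine Polynomial.natDegree_sum_le_of_forall_le _ _ fun a _ => ?_
  refine (Polynomial.natDegree_C_mul_X_pow_le _ _).trans ?_
  have := a.isLt
  omega

theorem pru_coeff (ω : F.Ω) (a : Fin (K + 1)) : (pru F c u w K N H ω).coeff (a : ℕ) =
    (cod F w (fun s => H s u) (c u) N 0 K ω a : ℝ) / 2 ^ N := by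
  unfold pru
  rw [Polynomial.finsetSum_coeff, Finset.sum_eq_single a]
  · rw [Polynomial.coeff_C_mul_X_pow, if_pos rfl]
  · intro b _ hb
    rw [Polynomial.coeff_C_mul_X_pow, if_neg]
    intro h
    exact hb (Fin.ext h.symm)
  · intro h
    exact absurd (mem_univ _) h

theorem pru_of {ω ν : F.Ω} (h : cod F w (fun s => H s u) (c u) N 0 K ω =
    cod F w (fun s => H s u) (c u) N 0 K ν) : pru F c u w K N H ω = pru F c u w K N H ν := by
  unfold pru
  rw [h]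

theorem pru_near (hH : ∀ s l, (H s l).totalDegree ≤ D) (hK : D + 1 ≤ K) (ω : F.Ω) (a : ℕ) :
    |(dv w (fun s (_ : Fin m) => H s u) (c u) (slam F w ω) - pru F c u w K N H ω).coeff a| ≤
      1 / 2 ^ N := by
  have hdeg := natDegree_dvH (c := c) (w := w) hH hK u (slam F w ω)
  rw [Polynomial.coeff_sub]
  rcases Nat.lt_or_ge K a with h | h
  · rw [Polynomial.coeff_eq_zero_of_natDegree_lt (hdeg.trans_lt h),
      Polynomial.coeff_eq_zero_of_natDegree_lt ((pru_deg ω).trans_lt h), sub_self, abs_zero]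
    positivity
  · have h1 := pru_coeff (F := F) (c := c) (u := u) (w := w) (N := N) (H := H) ω
      ⟨a, Nat.lt_succ_of_le h⟩
    simp only at h1
    rw [h1]
    unfold cod
    rw [if_pos (Nat.zero_le _)]
    obtain ⟨x, hx⟩ : ∃ x, x = (dv w (fun s (_ : Fin m) => H s u) (c u)
      (slam F w ω)).coeff a := ⟨_, rfl⟩
    simp only
    rw [← hx]
    have p : (0 : ℝ) < 2 ^ N := by positivity
    have f1 := Int.floor_le ((2 : ℝ) ^ N * x)
    have f2 := Int.lt_floor_add_one ((2 : ℝ) ^ N * x)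
    have e1 : x - (⌊(2 : ℝ) ^ N * x⌋ : ℝ) / 2 ^ N = ((2 : ℝ) ^ N * x - ⌊(2 : ℝ) ^ N * x⌋) / 2 ^ N := by
      field_simp
    rw [e1, abs_div, abs_of_pos p, abs_of_nonneg (by linarith)]
    exact div_le_div_of_nonneg_right (by linarith) p.le

theorem pow_mul_le (hN : γ u + q + 2 * K ≤ N) :
    (2 : ℝ) ^ (γ u + q) * ((K + 1) * 2 ^ K * (1 / 2 ^ N)) ≤ 1 := by
  have hK1 : ((K : ℝ) + 1) ≤ 2 ^ K := by
    have : K + 1 ≤ 2 ^ K := K.lt_two_pow_self
    exact_mod_cast this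
  have e1 : (2 : ℝ) ^ N = 2 ^ (γ u + q) * 2 ^ K * 2 ^ K * 2 ^ (N - (γ u + q + 2 * K)) := by
    rw [← pow_add, ← pow_add, ← pow_add]
    congr 1
    omega
  have e2 : (1 : ℝ) ≤ 2 ^ (N - (γ u + q + 2 * K)) := one_le_pow₀ (by norm_num)
  have p2 : (0 : ℝ) < 2 ^ K := by positivity
  have p3 : (0 : ℝ) < 2 ^ (γ u + q) := by positivity
  rw [show (2 : ℝ) ^ (γ u + q) * ((K + 1) * 2 ^ K * (1 / 2 ^ N)) =
    2 ^ (γ u + q) * ((K + 1) * 2 ^ K) / 2 ^ N by ring, div_le_one (by positivity), e1]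
  calc (2 : ℝ) ^ (γ u + q) * ((K + 1) * 2 ^ K) ≤ 2 ^ (γ u + q) * (2 ^ K * 2 ^ K) :=
        mul_le_mul_of_nonneg_left (mul_le_mul_of_nonneg_right hK1 p2.le) p3.le
    _ = 2 ^ (γ u + q) * 2 ^ K * 2 ^ K * 1 := by ring
    _ ≤ _ := mul_le_mul_of_nonneg_left e2 (by positivity)

theorem rsu_eq (hwW : w ≤ W) (hW : W ≤ J) (ω : F.Ω) : rsu F c u q w W K N γ H ω =
    Polynomial.C (2 ^ (γ u + q)) * plW F w W (dv w (fun s (_ : Fin m) => H s u) (c u)
      (slam F w ω) - pru F c u w K N H ω) ω := by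
  unfold rsu
  rw [plW_sub, mul_sub, dv_up F hwW hW (fun s => H s u) (c u) ω]
  rfl

theorem rsu_deg (hwW : w ≤ W) (hW : W ≤ J) (hH : ∀ s l, (H s l).totalDegree ≤ D) (hK : D + 1 ≤ K)
    (ω : F.Ω) : (rsu F c u q w W K N γ H ω).natDegree ≤ K := by
  rw [rsu_eq hwW hW]
  refine (Polynomial.natDegree_C_mul_le _ _).trans (plW_deg F ?_ ω)
  exact (Polynomial.natDegree_sub_le _ _).trans (max_le
    (natDegree_dvH (c := c) (w := w) hH hK u (slam F w ω)) (pru_deg ω))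

theorem rsu_coeff (hwW : w ≤ W) (hW : W ≤ J) (hH : ∀ s l, (H s l).totalDegree ≤ D)
    (hK : D + 1 ≤ K) (hN : γ u + q + 2 * K ≤ N) (ω : F.Ω) (a : ℕ) :
    |(rsu F c u q w W K N γ H ω).coeff a| ≤ 1 := by
  have hdeg : (dv w (fun s (_ : Fin m) => H s u) (c u) (slam F w ω) -
      pru F c u w K N H ω).natDegree ≤ K := (Polynomial.natDegree_sub_le _ _).trans (max_le
    (natDegree_dvH (c := c) (w := w) hH hK u (slam F w ω)) (pru_deg ω))
  rw [rsu_eq hwW hW, Polynomial.coeff_C_mul, abs_mul, abs_of_pos (by positivity)]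
  exact (mul_le_mul_of_nonneg_left (plW_coeff F hwW hW hdeg (pru_near hH hK ω) ω a)
    (by positivity)).trans (pow_mul_le hN)

theorem RU_deg (hwW : w ≤ W) (hW : W ≤ J) (hH : ∀ s l, (H s l).totalDegree ≤ D)
    (hK : D + 1 ≤ K) {K₁ : ℕ} {ω : F.Ω} (hm : (mC ω).natDegree ≤ K₁) :
    (RU F c u q w W K N γ H mC ω).natDegree ≤ K₁ + K :=
  Polynomial.natDegree_mul_le.trans (add_le_add hm (rsu_deg hwW hW hH hK ω))

theorem RU_coeff (hwW : w ≤ W) (hW : W ≤ J) (hH : ∀ s l, (H s l).totalDegree ≤ D)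
    (hK : D + 1 ≤ K) (hN : γ u + q + 2 * K ≤ N) {Um : ℝ} {ω : F.Ω}
    (hm : ∀ a, |(mC ω).coeff a| ≤ Um) (a : ℕ) :
    |(RU F c u q w W K N γ H mC ω).coeff a| ≤ (K + 1) * Um := by
  have h1 := coeff_mul_le (rsu_deg (c := c) (N := N) hwW hW hH hK ω)
    ((abs_nonneg _).trans (hm 0)) zero_le_one hm
    (rsu_coeff (c := c) (γ := γ) (q := q) hwW hW hH hK hN ω) a
  rwa [mul_one] at h1

theorem RU_slam (p : F.Ω → ℝ) (hwW : w ≤ W) (hW : W ≤ J) (hm : Det p (slam F W) mC) :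
    Det p (slam F W) (RU F c u q w W K N γ H mC) := by
  intro ω ν hω hν e
  have e1 : slam F w ω = slam F w ν := by
    rw [← upw_slam F hwW hW ω, ← upw_slam F hwW hW ν, e]
  have e2 : F.T1 W ω = F.T1 W ν := by
    have := (Prod.ext_iff.mp (Prod.ext_iff.mp e).2).2
    exact this
  have e3 : cod F w (fun s => H s u) (c u) N 0 K ω = cod F w (fun s => H s u) (c u) N 0 K ν := by
    unfold cod
    rw [e1]
  unfold RU rsu
  rw [hm ω ν hω hν e, e, pru_of e3, plW_of F hwW hW _ e2]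

/-- The difference of the corrections of two samples with equal context. -/
theorem RU_sub (hwW : w ≤ W) (hW : W ≤ J) {ω ν : F.Ω} (hT : F.T1 W ω = F.T1 W ν)
    (hm : mC ω = mC ν) (h : cod F w (fun s => H s u) (c u) N 0 K ω =
      cod F w (fun s => H s u) (c u) N 0 K ν) :
    RU F c u q w W K N γ H mC ω - RU F c u q w W K N γ H mC ν = mC ω *
      (Polynomial.C (2 ^ (γ u + q)) * dv W (fun s (_ : Fin m) => H (upw w W s) u) (c u)
        (slam F W ω) - Polynomial.C (2 ^ (γ u + q)) *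
        dv W (fun s (_ : Fin m) => H (upw w W s) u) (c u) (slam F W ν)) := by
  unfold RU rsu
  rw [← hm, ← pru_of h, ← plW_of F hwW hW _ hT]
  ring

/-- The values of the paths. -/
theorem dvW_ojet (hwW : w ≤ W) (hW : W ≤ J) (ω : F.Ω) :
    (Polynomial.C (2 ^ (γ u + q)) * dv W (fun s (_ : Fin m) => H (upw w W s) u) (c u)
      (slam F W ω)).eval (rt F W ω) = 2 ^ (γ u + q) * ojet F (c u) 0 (H (slam F w ω) u) ω :=
  adG_A1 (v := u) (i := 0) (X := 0) (mm := 0) (gg := fun _ _ => 0) (z := fun _ => ()) hwW hW ω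

theorem RU_val (hwW : w ≤ W) (hW : W ≤ J) {ω ν : F.Ω} (hT : F.T1 W ω = F.T1 W ν)
    (ht : rt F W ω = rt F W ν) (hm : mC ω = mC ν)
    (h : cod F w (fun s => H s u) (c u) N 0 K ω = cod F w (fun s => H s u) (c u) N 0 K ν) :
    (RU F c u q w W K N γ H mC ω).eval (rt F W ω) -
      (RU F c u q w W K N γ H mC ν).eval (rt F W ν) = (mC ω).eval (rt F W ω) *
        (2 ^ (γ u + q) * (ojet F (c u) 0 (H (slam F w ω) u) ω -
          ojet F (c u) 0 (H (slam F w ν) u) ν)) := by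
  have h1 := RU_sub (q := q) (γ := γ) hwW hW hT hm h
  have h2 := congrArg (Polynomial.eval (rt F W ω)) h1
  rw [Polynomial.eval_sub, Polynomial.eval_mul, Polynomial.eval_sub, dvW_ojet hwW hW, ht,
    dvW_ojet hwW hW, ← ht] at h2
  rw [← ht, h2]
  ring

/-- Near values of the place `u`. -/
theorem ojet_u (hwW : w ≤ W) (hW : W ≤ J) (hH : ∀ s l, (H s l).totalDegree ≤ D)
    (hK : D + 1 ≤ K) (hN : γ u + q + 2 * K ≤ N) {ω ν : F.Ω} (ht : F.T ω = F.T ν)
    (h : cod F w (fun s => H s u) (c u) N 0 K ω = cod F w (fun s => H s u) (c u) N 0 K ν) :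
    2 ^ (γ u + q) * |ojet F (c u) 0 (H (slam F w ω) u) ω -
      ojet F (c u) 0 (H (slam F w ν) u) ν| ≤ 1 := by
  have h1 := ojet_near F (hwW.trans hW) (natDegree_dvH (c := c) (w := w) hH hK u)
    (rt_of F (hwW.trans hW) ht) (a := 0) (δ := 1 / 2 ^ N) (by positivity)
    fun b hb hbK => cod_near h hb hbK
  simp only [Nat.factorial_zero, Nat.cast_one, pow_zero, mul_one, one_mul] at h1
  exact (mul_le_mul_of_nonneg_left h1 (by positivity)).trans (pow_mul_le hN)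

theorem hgt_u (hwW : w ≤ W) (hW : W ≤ J) (hH : ∀ s l, (H s l).totalDegree ≤ D)
    (hK : D + 1 ≤ K) (hN : γ u + q + 2 * K ≤ N)
    (hc : ∀ ω, B ω → G₀ (ptr F J ω) u = H (slam F w ω) u) {ω ν : F.Ω} (hω : B ω) (hν : B ν)
    (ht : F.T ω = F.T ν)
    (h : cod F w (fun s => H s u) (c u) N 0 K ω = cod F w (fun s => H s u) (c u) N 0 K ν) :
    |hgt F c G₀ ω u - hgt F c G₀ ν u| ≤ 1 / 2 ^ (γ u + q) := by
  rw [hgt_ojet (hwW.trans hW) (hc ω hω), hgt_ojet (hwW.trans hW) (hc ν hν),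
    le_div_iff₀ (by positivity), mul_comm]
  exact ojet_u hwW hW hH hK hN ht h

/-! ### The fields of `PrN` -/

/-- The constant of the coefficients of the correction. -/
noncomputable def cRU (K' K : ℕ) (Um : ℝ) : ℝ :=
  ((K' : ℝ) + 1) * Real.log (2 * ((K + 1) * Um + 1) + 1)

theorem cRU_nonneg (K' K : ℕ) {Um : ℝ} (h : 0 ≤ Um) : 0 ≤ cRU K' K Um := by
  unfold cRU
  have h1 : (0 : ℝ) ≤ (K + 1) * Um := by positivity
  exact mul_nonneg (by positivity) (Real.log_nonneg (by linarith))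

/-- **The field `cR`.** -/
theorem RU_cR {p : F.Ω → ℝ} (hp : IsLaw p) (hwW : w ≤ W) (hW : W ≤ J)
    (hH : ∀ s l, (H s l).totalDegree ≤ D) (hK : D + 1 ≤ K) {i X mm K' : ℕ}
    {gg : F.Ω → Fin 1 → ℝ} {ζ 𝓦 : Type} {z : F.Ω → ζ} {Um e₁ : ℝ} (hU : 0 ≤ Um)
    (hm : ∀ ω, 0 < p ω → ∀ a, |(mC ω).coeff a| ≤ Um) (Z : F.Ω → 𝓦)
    (hZ : ∀ ω ν, 0 < p ω → 0 < p ν → Z ω = Z ν → F.T1 W ω = F.T1 W ν ∧ mC ω = mC ν ∧
      cod F w (fun s => H s u) (c u) N 0 K ω = cod F w (fun s => H s u) (c u) N 0 K ν)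
    (hac : CH p ((adG F c (fun _ : Fin 1 => u) i q w W X mm γ gg H z).ac K) Z ≤ e₁) :
    CH p (fun ω (a : Fin (K' + 1)) =>
      ⌊(2 : ℝ) ^ X * (RU F c u q w W K N γ H mC ω).coeff a⌋) Z ≤ e₁ + cRU K' K Um := by
  have h0 := hp.nonneg
  obtain ⟨d, hd⟩ : ∃ d, d = adG F c (fun _ : Fin 1 => u) i q w W X mm γ gg H z := ⟨_, rfl⟩
  rw [← hd] at hac
  have hX : d.X = X := by rw [hd]; rfl
  have hmm : d.m = mm := by rw [hd]; rfl
  have hA : ∀ o, d.A o 0 = Polynomial.C (2 ^ (γ u + q)) *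
      dv W (fun s (_ : Fin m) => H (upw w W s) u) (c u) (slam F W o) := fun o => by rw [hd]; rfl
  have hdeg : ∀ s, (dv W (fun s (_ : Fin m) => H (upw w W s) u) (c u) s).natDegree ≤ K :=
    fun s => (natDegree_dv W (G := fun s (_ : Fin m) => H (upw w W s) u)
      (fun s _ => hH _ _) _ _).trans hK
  have hAd : ∀ o, (d.A o 0).natDegree ≤ K := fun o => by
    rw [hA]
    exact (Polynomial.natDegree_C_mul_le _ _).trans (hdeg _)
  have a1 := CH_le_add h0 (fun ω (a : Fin (K' + 1)) =>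
      ⌊(2 : ℝ) ^ X * (RU F c u q w W K N γ H mC ω).coeff a⌋) (d.ac K) Z
  have pX : (0 : ℝ) < 2 ^ X := by positivity
  have pXm : (0 : ℝ) < 2 ^ (X + mm) := by positivity
  have key : ∀ ω ν, 0 < p ω → 0 < p ν → (d.ac K ω, Z ω) = (d.ac K ν, Z ν) → ∀ a : ℕ,
      |((⌊(2 : ℝ) ^ X * (RU F c u q w W K N γ H mC ω).coeff a⌋ : ℤ) : ℝ) -
        (⌊(2 : ℝ) ^ X * (RU F c u q w W K N γ H mC ν).coeff a⌋ : ℤ)| ≤ (K + 1) * Um + 1 := by
    intro ω ν hω hν e a
    obtain ⟨e1, e2⟩ := Prod.ext_iff.mp e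
    obtain ⟨z1, z2, z3⟩ := hZ ω ν hω hν e2
    refine floor_near' ?_
    rw [← mul_sub, ← Polynomial.coeff_sub, RU_sub hwW hW z1 z2 z3, ← hA, ← hA, abs_mul,
      abs_of_pos pX]
    have n1 : ∀ b, |(d.A ω 0 - d.A ν 0).coeff b| ≤ 1 / 2 ^ X := by
      intro b
      rw [Polynomial.coeff_sub]
      rcases Nat.lt_or_ge K b with h5 | h5
      · rw [Polynomial.coeff_eq_zero_of_natDegree_lt ((hAd ω).trans_lt h5),
          Polynomial.coeff_eq_zero_of_natDegree_lt ((hAd ν).trans_lt h5), sub_self, abs_zero]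
        positivity
      · have h6 := congrFun (congrFun e1 0) ⟨b, Nat.lt_succ_of_le h5⟩
        unfold AD.ac at h6
        rw [hX, hmm] at h6
        refine (near_of_floor pXm h6).trans (one_div_le_one_div_of_le pX ?_)
        exact pow_le_pow_right₀ (by norm_num) (Nat.le_add_right _ _)
    have n2 := coeff_mul_le ((Polynomial.natDegree_sub_le _ _).trans (max_le (hAd ω) (hAd ν)))
      hU (by positivity) (hm ω hω) n1 a
    refine (mul_le_mul_of_nonneg_left n2 pX.le).trans (le_of_eq ?_)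
    field_simp
  have h2 := ch_vec h0 (fun ω => (d.ac K ω, Z ω)) (K' + 1) (fun ω (a : Fin (K' + 1)) =>
      ⌊(2 : ℝ) ^ X * (RU F c u q w W K N γ H mC ω).coeff a⌋)
    (c := Real.log (2 * ((K + 1) * Um + 1) + 1)) fun b =>
      CH_pair_int hp _ _ (by positivity) fun ω ν a a' e => key ω ν a a' e b
  push_cast at h2
  unfold cRU
  linarith

/-- **The hypothesis on the values**: equal digits of the place `u`. -/
theorem RU_V (hwW : w ≤ W) (hW : W ≤ J) {X K₁ : ℕ} {Um Nb : ℝ} {ω ν : F.Ω}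
    (hN : ((γ u + q + X : ℕ) : ℝ) ≤ Nb) (hd : (mC ω).natDegree ≤ K₁)
    (hm : ∀ a, |(mC ω).coeff a| ≤ Um) (hV : Vh F c u w H Nb ω = Vh F c u w H Nb ν)
    (hT : F.T1 W ω = F.T1 W ν) (ht : rt F W ω = rt F W ν) (hmC : mC ω = mC ν)
    (h : cod F w (fun s => H s u) (c u) N 0 K ω = cod F w (fun s => H s u) (c u) N 0 K ν) :
    |2 ^ X * (RU F c u q w W K N γ H mC ω).eval (rt F W ω) -
      2 ^ X * (RU F c u q w W K N γ H mC ν).eval (rt F W ν)| ≤ (K₁ + 1) * Um := by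
  have p1 : (0 : ℝ) < 2 ^ (γ u + q + X) := by positivity
  have p3 : (0 : ℝ) < (2 : ℝ) ^ Nb := Real.rpow_pos_of_pos two_pos Nb
  have hv := near_of_floor p3 hV
  have hv2 : |ojet F (c u) 0 (H (slam F w ω) u) ω - ojet F (c u) 0 (H (slam F w ν) u) ν| ≤
      1 / 2 ^ (γ u + q + X) := by
    refine hv.trans (one_div_le_one_div_of_le p1 ?_)
    rw [← Real.rpow_natCast]
    exact Real.rpow_le_rpow_of_exponent_le one_le_two hN
  have hth := rt_mem F W ω
  have hU0 : 0 ≤ Um := (abs_nonneg _).trans (hm 0)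
  have h1 := eval_le_of hd ⟨hth.1, hth.2⟩ hm
  rw [← mul_sub, RU_val hwW hW hT ht hmC h, abs_mul, abs_mul, abs_mul, abs_of_pos
    (by positivity : (0 : ℝ) < 2 ^ X), abs_of_pos (by positivity : (0 : ℝ) < 2 ^ (γ u + q))]
  rw [le_div_iff₀ p1, pow_add _ (γ u + q) X] at hv2
  have h2 : (2 : ℝ) ^ (γ u + q) * |ojet F (c u) 0 (H (slam F w ω) u) ω -
      ojet F (c u) 0 (H (slam F w ν) u) ν| * 2 ^ X ≤ 1 := by linarith
  calc _ = |(mC ω).eval (rt F W ω)| * ((2 : ℝ) ^ (γ u + q) *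
        |ojet F (c u) 0 (H (slam F w ω) u) ω - ojet F (c u) 0 (H (slam F w ν) u) ν| * 2 ^ X) := by
        ring
    _ ≤ (K₁ + 1) * Um * 1 := mul_le_mul h1 h2 (by positivity) (by positivity)
    _ = _ := mul_one _

/-- **The digits of the place `u`** given time and context. -/
theorem Vu_few {q' : F.Ω → ℝ} (hq : IsLaw q') (hwW : w ≤ W) (hW : W ≤ J)
    (hH : ∀ s l, (H s l).totalDegree ≤ D) (hK : D + 1 ≤ K) (hN : γ u + q + 2 * K ≤ N) {Nb : ℝ}
    (hNb : ((γ u + q : ℕ) : ℝ) ≤ Nb) {𝓦 : Type} (Z : F.Ω → 𝓦)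
    (hZ : ∀ ω ν, 0 < q' ω → 0 < q' ν → Z ω = Z ν → F.T1 W ω = F.T1 W ν ∧ rt F W ω = rt F W ν ∧
      cod F w (fun s => H s u) (c u) N 0 K ω = cod F w (fun s => H s u) (c u) N 0 K ν) :
    CH q' (Vh F c u w H Nb) Z ≤ (Nb - (γ u + q : ℕ)) * Real.log 2 + Real.log 5 := by
  have p2 : (0 : ℝ) < 2 ^ (γ u + q) := by positivity
  have p3 : (0 : ℝ) < (2 : ℝ) ^ Nb := Real.rpow_pos_of_pos two_pos Nb
  obtain ⟨x, hx⟩ : ∃ x : ℝ, x = 2 ^ (Nb - (γ u + q : ℕ)) := ⟨_, rfl⟩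
  have hx1 : 1 ≤ x := by
    rw [hx]
    exact Real.one_le_rpow one_le_two (by linarith)
  have hxe : x * 2 ^ (γ u + q) = 2 ^ Nb := by
    rw [hx, ← Real.rpow_natCast 2 (γ u + q), ← Real.rpow_add two_pos]
    congr 1
    ring
  have h1 : CH q' (Vh F c u w H Nb) Z ≤ Real.log (2 * (x + 1) + 1) := by
    refine CH_pair_int hq _ Z (by positivity) fun ω ν hω hν e => ?_
    obtain ⟨z1, z2, z3⟩ := hZ ω ν hω hν e
    have t1 := time_eq F hW z1 z2
    have h2 := ojet_u (γ := γ) (q := q) hwW hW hH hK hN t1.1 z3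
    unfold Vh
    refine floor_near' ?_
    rw [← mul_sub, abs_mul, abs_of_pos p3, ← hxe, mul_assoc]
    calc _ ≤ x * 1 := mul_le_mul_of_nonneg_left h2 (by linarith)
      _ = x := mul_one _
  refine h1.trans ?_
  have h3 : Real.log (2 * (x + 1) + 1) ≤ Real.log (x * 5) := Real.log_le_log (by positivity)
    (by linarith)
  rw [Real.log_mul (by positivity) (by norm_num)] at h3
  have h4 : Real.log x = (Nb - (γ u + q : ℕ)) * Real.log 2 := by
    rw [hx, Real.log_rpow two_pos]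
  linarith

/-- **The code of the path of `u`** from its far jets and the codes of the orders `≥ 2`. -/
theorem ac_u {p : F.Ω → ℝ} (hp : IsLaw p) (hwW : w ≤ W) (hW : W ≤ J)
    (hH : ∀ s l, (H s l).totalDegree ≤ D) (hK : D + 1 ≤ K) {i X mm Nc : ℕ}
    {gg : F.Ω → Fin 1 → ℝ} {ζ 𝓦 : Type} {z : F.Ω → ζ}
    (hv : γ u + q + (X + mm) + 6 * K ≤ Nc) {Nf : ℕ → ℝ}
    (h0 : ((γ u + q + (X + mm) : ℕ) : ℝ) ≤ Nf 0 * J)
    (h1 : ((γ u + q + (X + mm) : ℕ) : ℝ) ≤ Nf 1 * J + W) (Z : F.Ω → 𝓦)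
    (hZ : ∀ ω ν, 0 < p ω → 0 < p ν → Z ω = Z ν → F.T1 W ω = F.T1 W ν ∧ rt F W ω = rt F W ν ∧
      jt1 F c u w H Nf ω = jt1 F c u w H Nf ν) :
    CH p ((adG F c (fun _ : Fin 1 => u) i q w W X mm γ gg H z).ac K) Z ≤
      CH p (cod F w (fun s => H s u) (c u) Nc 2 K) Z + cL K := by
  have hp0 := hp.nonneg
  obtain ⟨z', hz'⟩ : ∃ z' : F.Ω → ℕ × (Fin 1 → (Fin (K + 1) → ℤ) × (Fin (K + 1) → ℤ)),
    z' = fun ω => (F.T1 W ω, sdL F (fun _ => c u) 0 w K (fun s _ => H s u) (fun _ => 0)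
      (fun _ => Nc) ω) := ⟨_, rfl⟩
  have h2 := ac_sd (F := F) (c := fun _ => c u) (v := 0) (w := w) (W := W) (K := K) (D := D)
    (H := fun s _ => H s u) (nc := fun _ => 0) (nc' := fun _ => Nc) (i := 0) (q := q) (X := X)
    (mm := mm) (γ := fun _ => γ u) (gg := gg) (z := z') hp hwW hW (fun s _ => hH s u) hK hv
    (fun ω ν _ _ e => by
      rw [hz'] at e
      exact ⟨(Prod.ext_iff.mp e).1, (Prod.ext_iff.mp e).2⟩) h0 h1
  have a1 := CH_le_add hp0 ((adG F c (fun _ : Fin 1 => u) i q w W X mm γ gg H z).ac K)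
    (cod F w (fun s => H s u) (c u) Nc 2 K) Z
  have a2 : CH p ((adG F c (fun _ : Fin 1 => u) i q w W X mm γ gg H z).ac K)
      (fun ω => (cod F w (fun s => H s u) (c u) Nc 2 K ω, Z ω)) ≤ cL K := by
    refine le_trans (CH_mono_cond hp0 fun ω ν hω hν e => ?_) h2
    obtain ⟨e1, e2⟩ := Prod.ext_iff.mp e
    obtain ⟨z1, z2, z3⟩ := hZ ω ν hω hν e2
    have s1 : sdL F (fun _ => c u) 0 w K (fun s _ => H s u) (fun _ => 0) (fun _ => Nc) ω =
        sdL F (fun _ => c u) 0 w K (fun s _ => H s u) (fun _ => 0) (fun _ => Nc) ν := by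
      funext l
      have hl : (l : ℕ) = 0 := by omega
      unfold sdL
      rw [if_pos hl, if_pos hl]
      refine Prod.ext (show cod F w (fun s => H s u) (c u) 0 (K + 1) K ω =
        cod F w (fun s => H s u) (c u) 0 (K + 1) K ν from ?_) e1
      funext a
      unfold cod
      have ha : ¬ K + 1 ≤ (a : ℕ) := by omega
      rw [if_neg ha, if_neg ha]
    have s2 : z' ω = z' ν := by
      rw [hz']
      exact Prod.ext z1 s1
    exact Prod.ext z3 (Prod.ext z2 s2)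
  linarith

end

end Pool.AVG66
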