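import Pool.Agent.H57.AVX.Prx

/-!
# The data of the average with a corrected path of the target

`adN`: as `adG`, the path of the target minus a polynomial `R`. `GrdN`: the properties of the
gradient, for the corrected path. `adN_Nx`: the field `Nx`. `nc_of`, `ncd_of`, `g_of`: the digits of the
corrected path and of the path.
-/

set_option autoImplicit false

namespace Pool.AVG66

open Finset Real MvPolynomial
open Pool.Agent.H49.Ent Pool.Agent.H32.Dense Pool.STK Pool.KA Pool.KSAT Pool.K2S Pool.PB Pool.S6C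
open Pool.GEN Pool.CHT Pool.CHX Pool.ISO Pool.LA91 Pool.AVG71 Pool.AVG5 Pool.AVG57 Pool.D2F2
open Pool.PB.Trl (rt rt_mem t_rt)
open Pool.D2R (hgt)
open Pool.KVA (MI)

variable {m J : ℕ}

/-- **The data of the average** with the path of the target minus `R`. -/
noncomputable def adN (F : Fam m J) (c : ℕ → Fin m) {k : ℕ} (mv : Fin k → ℕ) (i q w W X mm : ℕ)
    (γ : ℕ → ℕ) (gg : F.Ω → Fin k → ℝ)
    (H : LnT F → ℕ → MvPolynomial (Option (Fin m)) ℝ) {ζ : Type} (z : F.Ω → ζ)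
    (R : F.Ω → Polynomial ℝ) : AD F.Ω ζ k where
  z := z
  th := rt F W
  P ω := (adG F c mv i q w W X mm γ gg H z).P ω - R ω
  A := (adG F c mv i q w W X mm γ gg H z).A
  bb := (adG F c mv i q w W X mm γ gg H z).bb
  X := X
  m := mm

/-- **The gradient** for samples with the same time, context and charts, and near heights of the
moved places; the height of the target minus the values of `R`. -/
structure GrdN (F : Fam m J) (c : ℕ → Fin m) {k : ℕ} (mv : Fin k → ℕ) (i q W X : ℕ) (γ : ℕ → ℕ)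
    (U : ℝ) (B : F.Ω → Prop) (G₀ : PtT F → ℕ → MvPolynomial (Option (Fin m)) ℝ)
    (gg : F.Ω → Fin k → ℝ) {ζ χ₁ χ₂ : Type} (z : F.Ω → ζ) (R : F.Ω → Polynomial ℝ)
    (Cj : F.Ω → χ₁) (Cx : F.Ω → χ₂) : Prop where
  U0 : 0 ≤ U
  bm : ∀ ω, B ω → ∀ j, |gg ω j| ≤ U
  bj : ∀ ω ν, B ω → B ν → F.t ω = F.t ν → z ω = z ν → Cj ω = Cj ν →
    (∀ j, |hgt F c G₀ ω (mv j) - hgt F c G₀ ν (mv j)| ≤ 2 ^ 2 / 2 ^ (γ (mv j) + q)) →
      ∀ j, |gg ω j - gg ν j| ≤ U / 2 ^ X
  bx : ∀ ω ν, B ω → B ν → F.t ω = F.t ν → z ω = z ν → Cx ω = Cx ν →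
    (∀ j, |hgt F c G₀ ω (mv j) - hgt F c G₀ ν (mv j)| ≤ 2 ^ 2 / 2 ^ (γ (mv j) + q)) →
      ∀ j, |gg ω j - gg ν j| ≤ U / 2 ^ X
  nx : ∀ ω ν, B ω → B ν → F.t ω = F.t ν → rt F W ω = rt F W ν → z ω = z ν → Cx ω = Cx ν →
    (∀ j, |hgt F c G₀ ω (mv j) - hgt F c G₀ ν (mv j)| ≤ 2 ^ 2 / 2 ^ (γ (mv j) + q)) →
      |2 ^ (γ i + q) * (hgt F c G₀ ω i - hgt F c G₀ ν i) -
        ((R ω).eval (rt F W ω) - (R ν).eval (rt F W ν)) - ∑ j, gg ω j *
        (2 ^ (γ (mv j) + q) * (hgt F c G₀ ω (mv j) - hgt F c G₀ ν (mv j)))| ≤ U / 2 ^ X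

section

variable {F : Fam m J} {c : ℕ → Fin m} {k : ℕ} {mv : Fin k → ℕ} {i q w W X mm : ℕ} {γ : ℕ → ℕ}
  {gg : F.Ω → Fin k → ℝ} {H : LnT F → ℕ → MvPolynomial (Option (Fin m)) ℝ} {ζ χ₁ χ₂ : Type}
  {z : F.Ω → ζ} {Cj : F.Ω → χ₁} {Cx : F.Ω → χ₂} {B : F.Ω → Prop}
  {G₀ : PtT F → ℕ → MvPolynomial (Option (Fin m)) ℝ} {U UR : ℝ} {R : F.Ω → Polynomial ℝ}
  {p : F.Ω → ℝ} {K : ℕ}

theorem adN_v : (adN F c mv i q w W X mm γ gg H z R).v K =
    (adG F c mv i q w W X mm γ gg H z).v K := rfl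

theorem adN_va : (adN F c mv i q w W X mm γ gg H z R).va K =
    (adG F c mv i q w W X mm γ gg H z).va K := rfl

theorem adN_ac : (adN F c mv i q w W X mm γ gg H z R).ac K =
    (adG F c mv i q w W X mm γ gg H z).ac K := rfl

/-- The paths. -/
theorem adN_pth (hP : Pth (adG F c mv i q w W X mm γ gg H z) K p)
    (hR : ∀ ω, 0 < p ω → (R ω).natDegree ≤ K) : Pth (adN F c mv i q w W X mm γ gg H z R) K p where
  law := hP.law
  th := hP.th
  dP := fun ω hω => by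
    have h1 := hP.dP ω hω
    have h2 := hR ω hω
    have h3 := Polynomial.natDegree_sub_le_of_le h1 h2
    rw [max_self] at h3
    exact h3
  dA := hP.dA

/-- The coefficients of the corrected path. -/
theorem adN_co (ω : F.Ω) (a : ℕ) : ((adN F c mv i q w W X mm γ gg H z R).P ω).coeff a =
    ((adG F c mv i q w W X mm γ gg H z).P ω).coeff a - (R ω).coeff a := by
  show ((adG F c mv i q w W X mm γ gg H z).P ω - R ω).coeff a = _
  exact Polynomial.coeff_sub _ _ _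

/-- Integer parts of differences. -/
theorem fl_sub (x r : ℝ) : |((⌊x - r⌋ : ℤ) : ℝ) - (((⌊x⌋ : ℤ) : ℝ) - ((⌊r⌋ : ℤ) : ℝ))| ≤ 1 := by
  have f1 := Int.floor_le (x - r)
  have f2 := Int.lt_floor_add_one (x - r)
  have f3 := Int.floor_le x
  have f4 := Int.lt_floor_add_one x
  have f5 := Int.floor_le r
  have f6 := Int.lt_floor_add_one r
  have h1 : ((⌊x - r⌋ : ℤ) : ℝ) - (((⌊x⌋ : ℤ) : ℝ) - ((⌊r⌋ : ℤ) : ℝ)) < 2 := by linarith
  have h2 : -2 < ((⌊x - r⌋ : ℤ) : ℝ) - (((⌊x⌋ : ℤ) : ℝ) - ((⌊r⌋ : ℤ) : ℝ)) := by linarith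
  have h3 : (⌊x - r⌋ : ℤ) - (⌊x⌋ - ⌊r⌋) < 2 := by exact_mod_cast h1
  have h4 : -2 < (⌊x - r⌋ : ℤ) - (⌊x⌋ - ⌊r⌋) := by exact_mod_cast h2
  have h5 : (⌊x - r⌋ : ℤ) - (⌊x⌋ - ⌊r⌋) ≤ 1 := by omega
  have h6 : -1 ≤ (⌊x - r⌋ : ℤ) - (⌊x⌋ - ⌊r⌋) := by omega
  rw [abs_le]
  constructor
  · exact_mod_cast h6
  · exact_mod_cast h5

/-- The constant. -/
noncomputable def cN (K : ℕ) (UR : ℝ) : ℝ :=
  (K + 1) * Real.log (2 * (2 * UR + 2) + 1) + Real.log (2 * (2 * K + 5) + 1)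

theorem cN_nonneg (hUR : 0 ≤ UR) : 0 ≤ cN K UR := by
  unfold cN
  have h1 := Real.log_nonneg (show (1 : ℝ) ≤ 2 * (2 * UR + 2) + 1 by linarith)
  have h2 := Real.log_nonneg (show (1 : ℝ) ≤ 2 * (2 * K + 5) + 1 by
    have : (0 : ℝ) ≤ K := Nat.cast_nonneg K
    linarith)
  positivity

theorem cN_log (K : ℕ) (UR : ℝ) : (K + 1) * Real.log (2 * (2 * UR + 2) + 1) ≤ cN K UR := by
  unfold cN
  have h2 := Real.log_nonneg (show (1 : ℝ) ≤ 2 * (2 * K + 5) + 1 by
    have : (0 : ℝ) ≤ K := Nat.cast_nonneg K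
    linarith)
  linarith

/-- **The higher codes of the corrected path.** -/
theorem nc_of (hp : IsLaw p) (hUR : 0 ≤ UR) {𝓦 : Type} (Z : F.Ω → 𝓦) {e₁ e₂ : ℝ}
    (h1 : CH p (fun ω (a : Fin K) => (adG F c mv i q w W X mm γ gg H z).nc K ω a.succ) Z ≤ e₁)
    (h2 : CH p (fun ω (a : Fin (K + 1)) => ⌊(2 : ℝ) ^ X * (R ω).coeff a⌋) Z ≤ e₂) :
    CH p (fun ω (a : Fin K) => (adN F c mv i q w W X mm γ gg H z R).nc K ω a.succ) Z ≤
      e₁ + e₂ + cN K UR := by
  have h0 := hp.nonneg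
  obtain ⟨A, hA⟩ : ∃ A : F.Ω → Fin K → ℤ, A = fun ω (a : Fin K) =>
    (adG F c mv i q w W X mm γ gg H z).nc K ω a.succ := ⟨_, rfl⟩
  obtain ⟨D, hD⟩ : ∃ D : F.Ω → Fin (K + 1) → ℤ, D = fun ω (a : Fin (K + 1)) =>
    ⌊(2 : ℝ) ^ X * (R ω).coeff a⌋ := ⟨_, rfl⟩
  rw [← hA] at h1
  rw [← hD] at h2
  have h3 := CH_subadd h0 A D Z
  have h4 := CH_le_add h0 (fun ω (a : Fin K) => (adN F c mv i q w W X mm γ gg H z R).nc K ω a.succ)
    (fun ω => (A ω, D ω)) Z
  have h5 := CH_near hp (fun ω (a : Fin K) =>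
    (adN F c mv i q w W X mm γ gg H z R).nc K ω a.succ) (fun ω => ((A ω, D ω), Z ω))
    (D := 2) (by norm_num) (fun ω ν _ _ e a => by
      obtain ⟨e1, _⟩ := Prod.ext_iff.mp e
      obtain ⟨e2, e3⟩ := Prod.ext_iff.mp e1
      have key : ∀ o : F.Ω, |(((adN F c mv i q w W X mm γ gg H z R).nc K o a.succ : ℤ) : ℝ) -
          ((A o a : ℝ) - (D o a.succ : ℝ))| ≤ 1 := by
        intro o
        have := fl_sub (2 ^ X * ((adG F c mv i q w W X mm γ gg H z).P o).coeff (a.succ : ℕ))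
          (2 ^ X * (R o).coeff (a.succ : ℕ))
        rw [← mul_sub, ← adN_co] at this
        rw [hA, hD]
        exact this
      have k1 := abs_le.mp (key ω)
      have k2 := abs_le.mp (key ν)
      have e2' : A ω = A ν := e2
      have e3' : D ω = D ν := e3
      rw [e2', e3'] at k1
      rw [abs_le]
      constructor <;> linarith [k1.1, k1.2, k2.1, k2.2])
  rw [Fintype.card_fin] at h5
  have h6 : (K : ℝ) * Real.log (2 * 2 + 1) ≤ cN K UR := by
    have h7 : Real.log (2 * 2 + 1) ≤ Real.log (2 * (2 * UR + 2) + 1) :=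
      Real.log_le_log (by norm_num) (by linarith)
    have h8 : (0 : ℝ) ≤ Real.log (2 * (2 * UR + 2) + 1) := Real.log_nonneg (by linarith)
    have h9 := cN_log K UR
    have h10 : (K : ℝ) * Real.log (2 * 2 + 1) ≤ K * Real.log (2 * (2 * UR + 2) + 1) :=
      mul_le_mul_of_nonneg_left h7 (Nat.cast_nonneg K)
    linarith
  linarith

/-- **The upper digits of the corrected path** are few given the upper digits of the path, and
conversely. -/
theorem ncd_near (hR : ∀ ω, 0 < p ω → ∀ a, |(R ω).coeff a| ≤ UR) {ω : F.Ω} (hω : 0 < p ω)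
    (a : Fin (K + 1)) :
    |(((adN F c mv i q w W X mm γ gg H z R).nc K ω a / 2 ^ X : ℤ) : ℝ) -
      (((adG F c mv i q w W X mm γ gg H z).nc K ω a / 2 ^ X : ℤ) : ℝ)| ≤ UR + 1 := by
  have h1 : (adN F c mv i q w W X mm γ gg H z R).nc K ω a / 2 ^ X =
      ⌊((adN F c mv i q w W X mm γ gg H z R).P ω).coeff a⌋ := floor_div_self _ _
  have h2 : (adG F c mv i q w W X mm γ gg H z).nc K ω a / 2 ^ X =
      ⌊((adG F c mv i q w W X mm γ gg H z).P ω).coeff a⌋ := floor_div_self _ _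
  rw [h1, h2, adN_co]
  have h3 := abs_le.mp (hR ω hω a)
  have f1 := Int.floor_le (((adG F c mv i q w W X mm γ gg H z).P ω).coeff a - (R ω).coeff a)
  have f2 := Int.lt_floor_add_one
    (((adG F c mv i q w W X mm γ gg H z).P ω).coeff a - (R ω).coeff a)
  have f3 := Int.floor_le (((adG F c mv i q w W X mm γ gg H z).P ω).coeff a)
  have f4 := Int.lt_floor_add_one (((adG F c mv i q w W X mm γ gg H z).P ω).coeff a)
  rw [abs_le]
  constructor <;> linarith [h3.1, h3.2]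

theorem ncd_of (hp : IsLaw p) (hUR : 0 ≤ UR) (hR : ∀ ω, 0 < p ω → ∀ a, |(R ω).coeff a| ≤ UR)
    {𝓦 : Type} (Z : F.Ω → 𝓦) {e₁ : ℝ}
    (h1 : CH p (fun ω (a : Fin (K + 1)) =>
      (adG F c mv i q w W X mm γ gg H z).nc K ω a / 2 ^ X) Z ≤ e₁) :
    CH p (fun ω (a : Fin (K + 1)) => (adN F c mv i q w W X mm γ gg H z R).nc K ω a / 2 ^ X) Z ≤
      e₁ + cN K UR := by
  have h0 := hp.nonneg
  obtain ⟨A, hA⟩ : ∃ A : F.Ω → Fin (K + 1) → ℤ, A = fun ω (a : Fin (K + 1)) =>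
    (adG F c mv i q w W X mm γ gg H z).nc K ω a / 2 ^ X := ⟨_, rfl⟩
  rw [← hA] at h1
  have h4 := CH_le_add h0 (fun ω (a : Fin (K + 1)) =>
    (adN F c mv i q w W X mm γ gg H z R).nc K ω a / 2 ^ X) A Z
  have h5 := CH_near hp (fun ω (a : Fin (K + 1)) =>
    (adN F c mv i q w W X mm γ gg H z R).nc K ω a / 2 ^ X) (fun ω => (A ω, Z ω))
    (D := 2 * UR + 2) (by linarith) (fun ω ν hω hν e a => by
      obtain ⟨e1, _⟩ := Prod.ext_iff.mp e
      have k1 := abs_le.mp (ncd_near (c := c) (mv := mv) (i := i) (q := q) (w := w) (W := W)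
        (X := X) (mm := mm) (γ := γ) (gg := gg) (H := H) (z := z) (K := K) hR hω a)
      have k2 := abs_le.mp (ncd_near (c := c) (mv := mv) (i := i) (q := q) (w := w) (W := W)
        (X := X) (mm := mm) (γ := γ) (gg := gg) (H := H) (z := z) (K := K) hR hν a)
      have e1' : A ω = A ν := e1
      have e2 := congrFun e1' a
      rw [hA] at e2
      have e3 : (adG F c mv i q w W X mm γ gg H z).nc K ω a / 2 ^ X =
        (adG F c mv i q w W X mm γ gg H z).nc K ν a / 2 ^ X := e2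
      rw [e3] at k1
      rw [abs_le]
      constructor <;> linarith [k1.1, k1.2, k2.1, k2.2])
  rw [Fintype.card_fin] at h5
  push_cast at h5
  have h9 := cN_log K UR
  linarith

/-- **The context of the path** is few given the context of the corrected path. -/
theorem g_few (hp : IsLaw p) (hUR : 0 ≤ UR) (hR : ∀ ω, 0 < p ω → ∀ a, |(R ω).coeff a| ≤ UR) :
    CH p ((adG F c mv i q w W X mm γ gg H z).g K)
      ((adN F c mv i q w W X mm γ gg H z R).g K) ≤ cN K UR := by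
  have h0 := hp.nonneg
  have h5 := CH_near hp (fun ω (a : Fin (K + 1)) =>
    (adG F c mv i q w W X mm γ gg H z).nc K ω a / 2 ^ X)
    ((adN F c mv i q w W X mm γ gg H z R).g K)
    (D := 2 * UR + 2) (by linarith) (fun ω ν hω hν e a => by
      have k1 := abs_le.mp (ncd_near (c := c) (mv := mv) (i := i) (q := q) (w := w) (W := W)
        (X := X) (mm := mm) (γ := γ) (gg := gg) (H := H) (z := z) (K := K) hR hω a)
      have k2 := abs_le.mp (ncd_near (c := c) (mv := mv) (i := i) (q := q) (w := w) (W := W)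
        (X := X) (mm := mm) (γ := γ) (gg := gg) (H := H) (z := z) (K := K) hR hν a)
      have e2 := congrFun (Prod.ext_iff.mp (Prod.ext_iff.mp e).2).2 a
      have e3 : (adN F c mv i q w W X mm γ gg H z R).nc K ω a / 2 ^ X =
        (adN F c mv i q w W X mm γ gg H z R).nc K ν a / 2 ^ X := e2
      rw [e3] at k1
      rw [abs_le]
      constructor <;> linarith [k1.1, k1.2, k2.1, k2.2])
  rw [Fintype.card_fin] at h5
  push_cast at h5
  have h9 := cN_log K UR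
  refine le_trans (CH_mono_left h0 fun ω ν _ _ e => ?_) (h5.trans h9)
  obtain ⟨e1, e2⟩ := Prod.ext_iff.mp e
  obtain ⟨e3, e4⟩ := Prod.ext_iff.mp e2
  obtain ⟨e5, _⟩ := Prod.ext_iff.mp e4
  exact Prod.ext e3 (Prod.ext e5 e1)

/-- **The height of the corrected path.** -/
theorem val_of (hp : IsLaw p) (hUR : 0 ≤ UR)
    (hth : ∀ ω, 0 < p ω → 0 ≤ rt F W ω ∧ rt F W ω < 1)
    (hd : ∀ ω, 0 < p ω → (R ω).natDegree ≤ K) {𝓦 : Type} (Z : F.Ω → 𝓦)
    (hZ : Det p Z (rt F W)) {e₁ e₂ : ℝ}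
    (h1 : CH p (fun ω => ⌊(2 : ℝ) ^ X * ((adG F c mv i q w W X mm γ gg H z).P ω).eval
      ((adG F c mv i q w W X mm γ gg H z).th ω)⌋) Z ≤ e₁)
    (h2 : CH p (fun ω (a : Fin (K + 1)) => ⌊(2 : ℝ) ^ X * (R ω).coeff a⌋) Z ≤ e₂) :
    CH p (fun ω => ⌊(2 : ℝ) ^ X * ((adN F c mv i q w W X mm γ gg H z R).P ω).eval
      ((adN F c mv i q w W X mm γ gg H z R).th ω)⌋) Z ≤ e₁ + e₂ + cN K UR := by
  have h0 := hp.nonneg
  obtain ⟨A, hA⟩ : ∃ A : F.Ω → ℤ, A = fun ω => ⌊(2 : ℝ) ^ X *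
    ((adG F c mv i q w W X mm γ gg H z).P ω).eval
      ((adG F c mv i q w W X mm γ gg H z).th ω)⌋ := ⟨_, rfl⟩
  obtain ⟨D, hD⟩ : ∃ D : F.Ω → Fin (K + 1) → ℤ, D = fun ω (a : Fin (K + 1)) =>
    ⌊(2 : ℝ) ^ X * (R ω).coeff a⌋ := ⟨_, rfl⟩
  rw [← hA] at h1
  rw [← hD] at h2
  have h3 := CH_subadd h0 A D Z
  have h4 := CH_le_add h0 (fun ω => ⌊(2 : ℝ) ^ X * ((adN F c mv i q w W X mm γ gg H z R).P
    ω).eval ((adN F c mv i q w W X mm γ gg H z R).th ω)⌋) (fun ω => (A ω, D ω)) Z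
  have hK0 : (0 : ℝ) ≤ K := Nat.cast_nonneg K
  have h5 := CH_pair_int hp (fun ω => ⌊(2 : ℝ) ^ X *
    ((adN F c mv i q w W X mm γ gg H z R).P ω).eval
      ((adN F c mv i q w W X mm γ gg H z R).th ω)⌋) (fun ω => ((A ω, D ω), Z ω))
    (D := 2 * K + 5) (by linarith) (fun ω ν hω hν e => by
      obtain ⟨e1, e2⟩ := Prod.ext_iff.mp e
      obtain ⟨e3, e4⟩ := Prod.ext_iff.mp e1
      have e5 : rt F W ω = rt F W ν := hZ ω ν hω hν e2
      have e3' : A ω = A ν := e3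
      have e4' : D ω = D ν := e4
      have g1 : ∀ o : F.Ω, (2 : ℝ) ^ X * ((adN F c mv i q w W X mm γ gg H z R).P o).eval
          ((adN F c mv i q w W X mm γ gg H z R).th o) =
          2 ^ X * ((adG F c mv i q w W X mm γ gg H z).P o).eval
            ((adG F c mv i q w W X mm γ gg H z).th o) - 2 ^ X * (R o).eval (rt F W o) := by
        intro o
        show (2 : ℝ) ^ X * ((adG F c mv i q w W X mm γ gg H z).P o - R o).eval (rt F W o) = _
        rw [Polynomial.eval_sub, mul_sub]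
        rfl
      -- the values of the correction
      have g2 : |2 ^ X * (R ω).eval (rt F W ω) - 2 ^ X * (R ν).eval (rt F W ν)| ≤ K + 1 := by
        rw [← e5, AD.eval_fin (hd ω hω), AD.eval_fin (hd ν hν), Finset.mul_sum, Finset.mul_sum,
          ← Finset.sum_sub_distrib]
        refine (Finset.abs_sum_le_sum_abs _ _).trans ?_
        refine (Finset.sum_le_sum (g := fun _ => (1 : ℝ)) fun a _ => ?_).trans (le_of_eq ?_)
        · have h7 := congrFun e4' a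
          rw [hD] at h7
          have h8 : ⌊(2 : ℝ) ^ X * (R ω).coeff a⌋ = ⌊(2 : ℝ) ^ X * (R ν).coeff a⌋ := h7
          have h9 := (Int.abs_sub_lt_one_of_floor_eq_floor h8).le
          have h10 := hth ω hω
          have h11 : 0 ≤ rt F W ω ^ (a : ℕ) := pow_nonneg h10.1 _
          have h12 : rt F W ω ^ (a : ℕ) ≤ 1 := pow_le_one₀ h10.1 h10.2.le
          rw [← mul_assoc, ← mul_assoc, ← sub_mul, abs_mul, abs_of_nonneg h11]
          exact mul_le_one₀ h9 h11 h12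
        · rw [Finset.sum_const, Finset.card_univ, Fintype.card_fin, nsmul_eq_mul, mul_one]
          push_cast
          ring
      have g3 : ⌊(2 : ℝ) ^ X * ((adG F c mv i q w W X mm γ gg H z).P ω).eval
          ((adG F c mv i q w W X mm γ gg H z).th ω)⌋ = ⌊(2 : ℝ) ^ X *
          ((adG F c mv i q w W X mm γ gg H z).P ν).eval
          ((adG F c mv i q w W X mm γ gg H z).th ν)⌋ := by
        rw [hA] at e3'
        exact e3'
      have g4 := (Int.abs_sub_lt_one_of_floor_eq_floor g3).le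
      have g5 := abs_le.mp g4
      have g6 := abs_le.mp g2
      have f1 := Int.floor_le ((2 : ℝ) ^ X * ((adN F c mv i q w W X mm γ gg H z R).P ω).eval
          ((adN F c mv i q w W X mm γ gg H z R).th ω))
      have f2 := Int.lt_floor_add_one ((2 : ℝ) ^ X *
        ((adN F c mv i q w W X mm γ gg H z R).P ω).eval
          ((adN F c mv i q w W X mm γ gg H z R).th ω))
      have f3 := Int.floor_le ((2 : ℝ) ^ X * ((adN F c mv i q w W X mm γ gg H z R).P ν).eval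
          ((adN F c mv i q w W X mm γ gg H z R).th ν))
      have f4 := Int.lt_floor_add_one ((2 : ℝ) ^ X *
        ((adN F c mv i q w W X mm γ gg H z R).P ν).eval
          ((adN F c mv i q w W X mm γ gg H z R).th ν))
      have k1 := g1 ω
      have k2 := g1 ν
      rw [abs_le]
      constructor <;> linarith [g5.1, g5.2, g6.1, g6.2])
  have h6 : Real.log (2 * (2 * K + 5) + 1) ≤ cN K UR := by
    unfold cN
    have h7 := Real.log_nonneg (show (1 : ℝ) ≤ 2 * (2 * UR + 2) + 1 by linarith)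
    have : 0 ≤ ((K : ℝ) + 1) * Real.log (2 * (2 * UR + 2) + 1) := by positivity
    linarith
  linarith

/-- **The field `bm`.** -/
theorem adN_bm (E : GrdN F c mv i q W X γ U B G₀ gg z R Cj Cx) {ω : F.Ω} (hω : B ω) (j : Fin k) :
    |(adN F c mv i q w W X mm γ gg H z R).bb ω j| ≤ U + 1 := by
  have h1 := adG_bbr (c := c) (mv := mv) (i := i) (q := q) (w := w) (W := W) (X := X) (mm := mm)
    (γ := γ) (gg := gg) (H := H) (z := z) ω j
  have h2 := E.bm ω hω j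
  have h3 : (1 : ℝ) / 2 ^ X ≤ 1 := by
    rw [div_le_one (by positivity)]
    exact one_le_pow₀ (by norm_num)
  have h4 := abs_le.mp h1
  have h5 := abs_le.mp h2
  show |(adG F c mv i q w W X mm γ gg H z).bb ω j| ≤ U + 1
  rw [abs_le]
  constructor <;> linarith [h4.1, h4.2, h5.1, h5.2]

/-- **The field `Nx`.** -/
theorem adN_Nx (hwW : w ≤ W) (hW : W ≤ J) (hc : ClsG F mv i w B G₀ H)
    (E : GrdN F c mv i q W X γ U B G₀ gg z R Cj Cx)
    (hp : IsLaw p) (hpB : ∀ ω, 0 < p ω → B ω) (hz : Det p z (F.T1 W))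
    (hP : Pth (adN F c mv i q w W X mm γ gg H z R) K p)
    (hK : (K : ℝ) ≤ 2 ^ (X + mm)) (hm : U + 1 ≤ 2 ^ mm) {ρ : Type} (Rx : F.Ω → ρ) :
    CH p ((adN F c mv i q w W X mm γ gg H z R).N K) (fun ω => (Rx ω,
      ((adN F c mv i q w W X mm γ gg H z R).T ω, (adN F c mv i q w W X mm γ gg H z R).g K ω))) ≤
      CH p Cx Rx + Real.log (2 * (U + 4 * k + 2 * ((K + 1) * (k + 1)) + 1) + 1) := by
  have h0 := hp.nonneg
  have hX : (0 : ℝ) < 2 ^ X := by positivity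
  have hbm := fun (ω : F.Ω) (hω : B ω) (j : Fin k) => adN_bm (w := w) (mm := mm) (H := H) E hω j
  have hbr := fun (ω : F.Ω) (j : Fin k) => adG_bbr (c := c) (mv := mv) (i := i) (q := q) (w := w)
    (W := W) (X := X) (mm := mm) (γ := γ) (gg := gg) (H := H) (z := z) ω j
  have hvP : ∀ ω, B ω → ((adN F c mv i q w W X mm γ gg H z R).P ω).eval
      ((adN F c mv i q w W X mm γ gg H z R).th ω) =
      2 ^ (γ i + q) * hgt F c G₀ ω i - (R ω).eval (rt F W ω) := fun ω hω => by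
    have := adG_valP (c := c) (q := q) (X := X) (mm := mm) (γ := γ) (gg := gg) (z := z) hwW hW hc
      hω
    show ((adG F c mv i q w W X mm γ gg H z).P ω - R ω).eval (rt F W ω) = _
    rw [Polynomial.eval_sub]
    have h9 : ((adG F c mv i q w W X mm γ gg H z).P ω).eval (rt F W ω) =
      2 ^ (γ i + q) * hgt F c G₀ ω i := this
    rw [h9]
  have hvA : ∀ ω, B ω → ∀ j, ((adN F c mv i q w W X mm γ gg H z R).A ω j).eval
      ((adN F c mv i q w W X mm γ gg H z R).th ω) = 2 ^ (γ (mv j) + q) *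
        hgt F c G₀ ω (mv j) := fun ω hω j =>
    adG_valA (c := c) (q := q) (X := X) (mm := mm) (γ := γ) (gg := gg) (z := z) hwW hW hc hω j
  have hnr := fun (ω ν : F.Ω) (hω : B ω) (hν : B ν) => adG_near (c := c) (q := q) (X := X)
    (mm := mm) (γ := γ) (gg := gg) (z := z) (K := K) hwW hW hc hω hν
  have h3 := AD.N_few hp hP.th hP.dP hP.dA
    (fun ω hω j => (hbm ω (hpB ω hω) j).trans (show U + 1 ≤ 2 ^ mm from hm))
    (fun ω => (Cx ω, (Rx ω, ((adN F c mv i q w W X mm γ gg H z R).T ω,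
      (adN F c mv i q w W X mm γ gg H z R).g K ω))))
    (fun _ _ _ _ e => (Prod.ext_iff.mp (Prod.ext_iff.mp e).2).2) (B := U + 4 * k)
    (by have := E.U0; positivity) ?_
  · have h1 := CH_le_add h0 ((adN F c mv i q w W X mm γ gg H z R).N K) Cx (fun ω => (Rx ω,
      ((adN F c mv i q w W X mm γ gg H z R).T ω, (adN F c mv i q w W X mm γ gg H z R).g K ω)))
    have h2 : CH p Cx (fun ω => (Rx ω, ((adN F c mv i q w W X mm γ gg H z R).T ω,
        (adN F c mv i q w W X mm γ gg H z R).g K ω))) ≤ CH p Cx Rx :=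
      CH_mono_cond h0 fun _ _ _ _ e => (Prod.ext_iff.mp e).1
    linarith
  intro ω ν hω hν e
  obtain ⟨e1, e2⟩ := Prod.ext_iff.mp e
  obtain ⟨_, e3⟩ := Prod.ext_iff.mp e2
  obtain ⟨e4, e5⟩ := Prod.ext_iff.mp e3
  have e6 : rt F W ω = rt F W ν := (Prod.ext_iff.mp e4).1
  have e7 : (adN F c mv i q w W X mm γ gg H z R).bb ω =
    (adN F c mv i q w W X mm γ gg H z R).bb ν := (Prod.ext_iff.mp e4).2
  have e8 := AD.det_wv p ω ν hω hν (AD.det_gw p ω ν hω hν e5)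
  obtain ⟨e9, e10⟩ := Prod.ext_iff.mp e8
  obtain ⟨e11, e12⟩ := Prod.ext_iff.mp e10
  have e9' : z ω = z ν := e9
  have t1 := time_eq F hW (hz ω ν hω hν e9') e6
  have n1 := hnr ω ν (hpB ω hω) (hpB ν hν) e6 (hP.th ω hω) ⟨hP.dA ω hω, hP.dA ν hν⟩ hK
    (fun j a => congrFun (congrFun e11 j) a) (fun j => congrFun e12 j)
  have b1 := E.nx ω ν (hpB ω hω) (hpB ν hν) t1.2 e6 e9' e1 n1
  have e13 : (adN F c mv i q w W X mm γ gg H z R).Q ω -
      (adN F c mv i q w W X mm γ gg H z R).Q ν = 2 ^ X *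
      (2 ^ (γ i + q) * (hgt F c G₀ ω i - hgt F c G₀ ν i) -
      ((R ω).eval (rt F W ω) - (R ν).eval (rt F W ν)) -
      ∑ j : Fin k, (adN F c mv i q w W X mm γ gg H z R).bb ω j * (2 ^ (γ (mv j) + q) *
        (hgt F c G₀ ω (mv j) - hgt F c G₀ ν (mv j)))) := by
    unfold AD.Q
    rw [hvP ω (hpB ω hω), hvP ν (hpB ν hν), ← mul_sub]
    show 2 ^ X * _ = _
    congr 1
    simp only [hvA ω (hpB ω hω), hvA ν (hpB ν hν), ← e7, mul_sub, Finset.sum_sub_distrib]
    ring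
  have b2 : |∑ j : Fin k, (gg ω j - (adN F c mv i q w W X mm γ gg H z R).bb ω j) *
      (2 ^ (γ (mv j) + q) * (hgt F c G₀ ω (mv j) - hgt F c G₀ ν (mv j)))| ≤
      k * (1 / 2 ^ X * 2 ^ 2) := by
    refine (Finset.abs_sum_le_sum_abs _ _).trans ?_
    refine (Finset.sum_le_sum (g := fun _ => 1 / 2 ^ X * (2 : ℝ) ^ 2) fun j _ => ?_).trans
      (le_of_eq ?_)
    · rw [abs_mul]
      refine mul_le_mul (hbr ω j) ?_ (abs_nonneg _) (by positivity)
      have h5 := n1 j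
      have h6 : (0 : ℝ) < 2 ^ (γ (mv j) + q) := by positivity
      rw [abs_mul, abs_of_pos h6, mul_comm]
      exact (le_div_iff₀ h6).1 h5
    · rw [Finset.sum_const, Finset.card_univ, Fintype.card_fin, nsmul_eq_mul]
  have e14 : 2 ^ (γ i + q) * (hgt F c G₀ ω i - hgt F c G₀ ν i) -
      ((R ω).eval (rt F W ω) - (R ν).eval (rt F W ν)) -
      ∑ j : Fin k, (adN F c mv i q w W X mm γ gg H z R).bb ω j * (2 ^ (γ (mv j) + q) *
        (hgt F c G₀ ω (mv j) - hgt F c G₀ ν (mv j))) =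
      (2 ^ (γ i + q) * (hgt F c G₀ ω i - hgt F c G₀ ν i) -
      ((R ω).eval (rt F W ω) - (R ν).eval (rt F W ν)) -
      ∑ j : Fin k, gg ω j * (2 ^ (γ (mv j) + q) *
        (hgt F c G₀ ω (mv j) - hgt F c G₀ ν (mv j)))) +
      ∑ j : Fin k, (gg ω j - (adN F c mv i q w W X mm γ gg H z R).bb ω j) *
      (2 ^ (γ (mv j) + q) * (hgt F c G₀ ω (mv j) - hgt F c G₀ ν (mv j))) := by
    simp only [sub_mul, Finset.sum_sub_distrib]
    ring
  rw [e13, abs_mul, abs_of_pos hX, e14]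
  have b3 := (abs_add_le _ _).trans (add_le_add b1 b2)
  refine (mul_le_mul_of_nonneg_left b3 hX.le).trans (le_of_eq ?_)
  field_simp
  ring

end

end Pool.AVG66
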