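import Pool.Agent.H44.D2.Clo
import Pool.Agent.H41.L1.LAG
import Pool.Agent.H71.AVG.Avg

/-!
# Closed coefficients with bounded polynomials

`clo_lawC`, `ad_cloC`: as `clo_law`, `ad_clo`; the coefficients of the polynomials are bounded by a
constant times the bound of the gradients.
-/

set_option autoImplicit false

namespace Pool.AVG66

open Finset Real
open Pool.Agent.H49.Ent Pool.Agent.H32.Dense Pool.STK Pool.K2S Pool.KAF Pool.M5 Pool.SLO Pool.BFL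
open Pool.MIC Pool.TIE Pool.D2Hz Pool.OWN68 Pool.D2L Pool.AVG71
open Pool.KVA (MI)

/-- **Closed coefficients**, with a bound for the coefficients of the polynomials. -/
theorem clo_lawC (k n K A : ℕ) (cc ε : ℝ) (hcc : 0 < cc) (hε : 0 < ε) :
    ∃ (κ₂ κ π₀ ι ε₀ : ℝ) (k₀ j₀ X₀ : ℕ), 0 < κ₂ ∧ 0 < κ ∧ κ ≤ 1 ∧ 0 < π₀ ∧ 0 < ι ∧ 0 < ε₀ ∧
      ∀ {Ω Λ Τ γ : Type} [Fintype Ω] (p : Ω → ℝ) (L : Ω → Λ) (T : Ω → Τ) (g : Ω → γ)
        (y : Ω → Fin k → ℤ) (c : Ω → Fin n → ℤ) (N : Ω → ℤ) (th s : Ω → ℝ)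
        (co : Ω → Mon k K → ℝ) (X : ℕ) (U₁ : ℝ), X₀ ≤ X →
        AvgA p L T g y c N th s co X A cc κ π₀ ι ε₀ j₀ → 0 ≤ U₁ →
        (∀ ω, 0 < p ω → ∀ i, |co ω i| ≤ U₁) →
        ∃ mu : Λ → Mon k K → Polynomial ℝ, (∀ l i, (mu l i).natDegree ≤ n) ∧
          (∀ l i a, |(mu l i).coeff a| ≤ (n + 1) * 2 ^ ((k₀ + 1) * n) * U₁) ∧
          Pb p (fun ω => ∃ i, (2 : ℝ) ^ (-(κ₂ * X)) < |co ω i - (mu (L ω) i).eval (th ω)|) ≤ ε := by
  classical
  obtain ⟨κ₂, κ, π₀, ι, ε₀, k₀, j₀, X₀, h1, h2, h3, h4, h5, h6, h7⟩ := l1a k n K A cc ε hcc hε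
  refine ⟨κ₂, κ, π₀, ι, ε₀, k₀, j₀, X₀, h1, h2, h3, h4, h5, h6, ?_⟩
  intro Ω Λ Τ γ _ p L T g y c N th s co X U₁ hX hA hU₁ hco
  have hp := hA.law
  have hL := h7 p L T g y c N th s co X hX hA
  obtain ⟨bad, hbad⟩ : ∃ bad : (Fin (n + 1) → Ω) → Ω → Prop, bad = fun v ω =>
      (∃ j j', j ≠ j' ∧ |th (v j) - th (v j')| < (2 : ℝ) ^ (-(k₀ : ℤ))) ∨
      ∃ i : Mon k K, (2 : ℝ) ^ (-(κ₂ * X)) < |co ω i -
        (Lagrange.interpolate univ (fun j => th (v j)) (fun j => co (v j) i)).eval (th ω)| :=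
    ⟨_, rfl⟩
  have hne : Nonempty Ω := by
    by_contra hcon
    rw [not_nonempty_iff] at hcon
    have := hp.sum_one
    rw [Finset.univ_eq_empty, Finset.sum_empty] at this
    exact zero_ne_one this
  have hne' : Nonempty (Fin (n + 1) → Ω) := ⟨fun _ => Classical.arbitrary Ω⟩
  obtain ⟨v, hv, hPb⟩ := best_glue (p₁ := tup p L n) (p₂ := p) (Z₁ := fun v => L (v 0)) (Z₂ := L)
    (tup_nonneg hp.nonneg L n) hp.nonneg (fun z => tup_law hp.nonneg L n z) bad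
  have hle : Pb p (fun ω => bad (v (L ω)) ω) ≤ ε := by
    refine hPb.trans (le_trans (le_of_eq ?_) hL)
    unfold Pr
    rw [law_True]
    rw [hbad]
    rfl
  -- the good references
  obtain ⟨gd, hgd⟩ : ∃ gd : Λ → Prop, gd = fun l => 0 < law p L l ∧
      ∀ j j', j ≠ j' → (2 : ℝ) ^ (-(k₀ : ℤ)) ≤ |th (v l j) - th (v l j')| := ⟨_, rfl⟩
  have hinj : ∀ l, gd l → Set.InjOn (fun j => th (v l j)) (univ : Finset (Fin (n + 1))) := by
    intro l hl j _ j' _ e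
    by_contra hne
    rw [hgd] at hl
    have h8 := hl.2 j j' hne
    have e' : th (v l j) = th (v l j') := e
    rw [e', sub_self, abs_zero] at h8
    have : (0 : ℝ) < 2 ^ (-(k₀ : ℤ)) := by positivity
    linarith
  refine ⟨fun l i => if gd l then Lagrange.interpolate univ (fun j => th (v l j))
    (fun j => co (v l j) i) else 0, ?_, ?_, ?_⟩
  · intro l i
    dsimp only
    split_ifs with hl
    · have h8 := Lagrange.degree_interpolate_lt (fun j => co (v l j) i) (hinj l hl)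
      rw [Finset.card_univ, Fintype.card_fin] at h8
      by_cases h0 : Lagrange.interpolate univ (fun j => th (v l j)) (fun j => co (v l j) i) = 0
      · rw [h0, Polynomial.natDegree_zero]
        exact Nat.zero_le _
      · have := (Polynomial.natDegree_lt_iff_degree_lt h0).2 h8
        omega
    · simp
  · intro l i a
    dsimp only
    split_ifs with hl
    · have hl' := hl
      rw [hgd] at hl'
      have h8 := (hv l hl'.1)
      have h9 := (tup_pos_iff hp.nonneg L n (v l)).1 h8.1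
      exact Pool.L1.lag_le (fun j => th (v l j)) (fun j => co (v l j) i) k₀ (fun j => by
        have := hA.hth _ (h9.1 j)
        rw [abs_of_nonneg this.1]
        exact this.2.le) (fun j j' h => hl'.2 j j' h) a (fun j => hco _ (h9.1 j) i)
    · rw [Polynomial.coeff_zero, abs_zero]
      positivity
  · refine le_trans ?_ hle
    unfold Pb
    refine Finset.sum_le_sum fun ω _ => ?_
    rcases (hp.nonneg ω).eq_or_lt with h8 | h8
    · rw [← h8]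
      split_ifs <;> exact le_rfl
    · by_cases h9 : bad (v (L ω)) ω
      · rw [if_pos h9]
        split_ifs
        · exact le_rfl
        · exact hp.nonneg ω
      · rw [if_neg h9, if_neg ?_]
        intro h10
        have h11 : gd (L ω) := by
          rw [hgd]
          refine ⟨law_pos hp.nonneg L h8, fun j j' hjj => ?_⟩
          by_contra hcon
          rw [not_le] at hcon
          refine h9 ?_
          rw [hbad]
          exact Or.inl ⟨j, j', hjj, hcon⟩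
        simp only [h11, if_true] at h10
        refine h9 ?_
        rw [hbad]
        exact Or.inr h10

/-- **Closed gradients.** -/
theorem ad_cloC (k K : ℕ) (cc ε : ℝ) (hcc : 0 < cc) (hε : 0 < ε) :
    ∃ (κ₂ κ π₀ ι ε₀ : ℝ) (k₀ j₀ X₀ : ℕ), 0 < κ₂ ∧ 0 < κ ∧ κ ≤ 1 ∧ 0 < π₀ ∧ 0 < ι ∧ 0 < ε₀ ∧
      ∀ {Ω β : Type} [Fintype Ω] (p : Ω → ℝ) (d : AD Ω β k) {ρ₁ ρ₂ ν₁ ν₂ σ₁ σ₂ υ : Type}
        (Rj : Ω → ρ₁) (Rx : Ω → ρ₂) (nj : Ω → ν₁) (nx : Ω → ν₂) (bj : Ω → σ₁) (bx : Ω → σ₂)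
        (V : Ω → υ) (M : Ω → ℤ) (F e B U U₁ : ℝ), X₀ ≤ d.X → 0 ≤ e → 0 ≤ U₁ →
        (∀ ω, 0 < p ω → ∀ j, |d.bb ω j| ≤ U₁) →
        d.Hyp K p Rj Rx nj nx bj bx V M F e B U π₀ ⌊κ * d.X⌋₊ →
        (∀ ω, 0 < p ω → ∀ j, |d.bb ω j| ≤ (2 : ℝ) ^ (ι * d.X)) →
        (1 - ι) * d.X * Real.log 2 ≤ CH p (fun ω => ⌊(2 : ℝ) ^ d.X * d.th ω⌋) (d.L K) →
        j₀ * Real.log 2 - ε₀ ≤ CH p (fun ω => ⌊(2 : ℝ) ^ j₀ * d.th ω⌋) (d.L K) →
        6 * e ≤ ι * d.X → 3 * e + k * d.m * Real.log 2 ≤ ι * d.X * Real.log 2 →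
        U + 2 * Real.log (2 * (B + 2 * ((K + 1) * (k + 1)) + 4) + 1) +
          (4 * e + k * d.m * Real.log 2 + Real.log 2) / π₀ ≤
          (1 - cc) * ⌊κ * d.X⌋₊ * Real.log 2 →
        ∃ mu : Lam β k K → Fin k → Polynomial ℝ, (∀ l i, (mu l i).natDegree ≤ K) ∧
          (∀ l i a, |(mu l i).coeff a| ≤ (K + 1) * 2 ^ ((k₀ + 1) * K) * U₁) ∧
          Pb p (fun ω => ∃ i, (2 : ℝ) ^ (-(κ₂ * d.X)) <
            |d.bb ω i - (mu (d.L K ω) i).eval (d.th ω)|) ≤ ε := by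
  classical
  obtain ⟨κ₂, κ, π₀, ι, ε₀, k₀, j₀, X₀, a1, a2, a3, a4, a5, a6, H⟩ :=
    clo_lawC k K 1 0 cc ε hcc hε
  refine ⟨κ₂, κ, π₀, ι, ε₀, k₀, j₀, X₀, a1, a2, a3, a4, a5, a6, ?_⟩
  intro Ω β _ p d ρ₁ ρ₂ ν₁ ν₂ σ₁ σ₂ υ Rj Rx nj nx bj bx V M F e B U U₁ hX he hU₁ hbU hyp hb h1f h1a n1
    n2 n3
  have hp := hyp.law
  obtain ⟨mu, m1, m2, m3⟩ := H p (d.L K) d.T (d.g K) (d.Y K) (d.C K) (d.N K) d.th (fun _ => 0)
    d.co d.X U₁ hX (hyp.avg he a4 hb h1f h1a n1 n2 n3) hU₁ (fun ω hω i => by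
      obtain ⟨j, hj⟩ := exists_cof (d.bb ω) i
      unfold AD.co
      rw [hj]
      exact hbU ω hω j)
  refine ⟨fun l j => mu l ⟨Pi.single j 1, single_mem j⟩, fun l i => m1 l _,
    fun l i a => m2 l _ a, le_trans ?_ m3⟩
  unfold Pb
  refine Finset.sum_le_sum fun ω _ => ?_
  by_cases h6 : ∃ i, (2 : ℝ) ^ (-(κ₂ * d.X)) < |d.bb ω i -
      (mu (d.L K ω) ⟨Pi.single i 1, single_mem i⟩).eval (d.th ω)|
  · rw [if_pos h6, if_pos ?_]
    obtain ⟨i, hi⟩ := h6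
    refine ⟨⟨Pi.single i 1, single_mem i⟩, ?_⟩
    have h7 : d.co ω ⟨Pi.single i 1, single_mem i⟩ = d.bb ω i := by
      unfold AD.co Pool.D2Hz.cof
      exact cof_single (d.bb ω) i
    rw [h7]
    exact hi
  · rw [if_neg h6]
    split_ifs
    · exact hp.nonneg ω
    · exact le_rfl

end Pool.AVG66
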