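import Pool.Agent.H66.AVG.Evn
import Pool.Agent.H57.AVX.Prx

/-!
# Closed gradients, a function of the code of the line

`PrX.prN`: the inputs `PrX` as `PrN` with `R = 0`. `av1_evL`: one moved place, the gradient is a polynomial
with bounded coefficients, a function of the code of the line.
-/

set_option autoImplicit false

namespace Pool.AVG66

open Finset Real MvPolynomial
open Pool.Agent.H49.Ent Pool.Agent.H32.Dense Pool.STK Pool.KA Pool.KSAT Pool.K2S Pool.PB Pool.S6C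
open Pool.GEN Pool.CHT Pool.CHX Pool.ISO Pool.LA91 Pool.AVG71 Pool.AVG5 Pool.AVG57 Pool.D2F2
open Pool.PB.Trl (rt rt_mem t_rt)
open Pool.D2R (hgt)
open Pool.KVA (MI)
open Pool.KAF (rs Pr)
open Pool.BFL (Pb)

variable {m J : ℕ}

section

variable {F : Fam m J} {c : ℕ → Fin m} {k : ℕ} {mv : Fin k → ℕ} {i q w W X mm D K : ℕ} {γ : ℕ → ℕ}
  {B : F.Ω → Prop} {G₀ : PtT F → ℕ → MvPolynomial (Option (Fin m)) ℝ}
  {H : LnT F → ℕ → MvPolynomial (Option (Fin m)) ℝ} {gg : F.Ω → Fin k → ℝ}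
  {ζ ζ' υ' φ' χ₁ χ₂ ρ₁ ρ₂ υ : Type} {z : F.Ω → ζ} {zw : F.Ω → ζ'} {Yc : F.Ω → υ'}
  {Yf : F.Ω → φ'} {Cj : F.Ω → χ₁} {Cx : F.Ω → χ₂} {Rj : F.Ω → ρ₁} {Rx : F.Ω → ρ₂} {V : F.Ω → υ}
  {p : F.Ω → ℝ} {Nf Nn Nx Nu Nv : Fin k → ℕ → ℝ} {Mf Mn : ℕ → ℝ} {U Fv e : ℝ}

theorem adN_zero : adN F c mv i q w W X mm γ gg H z (fun _ => 0) =
    adG F c mv i q w W X mm γ gg H z := by
  have e1 : (fun ω => (adG F c mv i q w W X mm γ gg H z).P ω - (0 : Polynomial ℝ)) =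
      (adG F c mv i q w W X mm γ gg H z).P := by
    funext ω
    exact sub_zero _
  unfold adN
  rw [e1]
  rfl

/-- `PrX` as `PrN` with `R = 0`. -/
theorem prX_prN (P : PrX F c mv i q w W X mm D K γ B G₀ H gg z zw Yc Yf Cj Cx Rj Rx V p Nf Nn
      Nx Nu Nv Mf Mn U Fv e) :
    PrN F c mv i q w W X mm D K γ B G₀ H gg z (fun _ => 0) zw Yc Yf Cj Cx Rj Rx V p Nf Nn
      Nx Nu Nv Mf Mn U 0 Fv e where
  law := P.law
  sup := P.sup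
  wW := P.wW
  WJ := P.WJ
  deg := P.deg
  DK := P.DK
  KX := P.KX
  cls := P.cls
  grd :=
    { U0 := P.grd.U0
      bm := P.grd.bm
      bj := P.grd.bj
      bx := P.grd.bx
      nx := fun ω ν hω hν ht _ hz hC hh => by
        have h1 := P.grd.nx ω ν hω hν ht hz hC hh
        have e1 : (2 ^ (γ i + q) * (hgt F c G₀ ω i - hgt F c G₀ ν i) -
            ((0 : Polynomial ℝ).eval (rt F W ω) - (0 : Polynomial ℝ).eval (rt F W ν)) : ℝ) =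
            2 ^ (γ i + q) * (hgt F c G₀ ω i - hgt F c G₀ ν i) := by
          rw [Polynomial.eval_zero, Polynomial.eval_zero, sub_zero, sub_zero]
        rw [e1]
        exact h1 }
  dR := fun _ _ => by
    rw [Polynomial.natDegree_zero]
    exact Nat.zero_le _
  bR := fun _ _ a => by
    rw [Polynomial.coeff_zero, abs_zero]
  UR0 := le_refl _
  cR := by
    rw [CH_eq_zero P.law.nonneg (fun _ _ _ _ _ => rfl)]
    exact (CH_nonneg P.law.nonneg _ _).trans P.chj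
  mU := P.mU
  zT := P.zT
  czy := P.czy
  cyz := P.cyz
  ti := by
    rw [adN_zero]
    exact P.ti
  mj := P.mj
  mx := P.mx
  chj := P.chj
  chx := P.chx
  zx := P.zx
  n0 := P.n0
  n1 := P.n1
  x0 := P.x0
  x1 := P.x1
  u0 := P.u0
  u1 := P.u1
  m0 := P.m0
  m1 := P.m1
  mf := P.mf
  ac := P.ac
  va := P.va
  dj := P.dj
  jt := P.jt
  vf := P.vf

end

/-- **Closed gradient in the direction of one moved place**, on one event, a function of the code of the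
line. -/
theorem av1_evL (K : ℕ) (cc ε : ℝ) (hcc : 0 < cc) (hε : 0 < ε) :
    ∃ (κ₂ κ π₀ ι ε₀ : ℝ) (k₁ j₀ X₀ : ℕ), 0 < κ₂ ∧ κ₂ ≤ 1 ∧ 0 < κ ∧ κ ≤ 1 ∧ 0 < π₀ ∧ 0 < ι ∧
      0 < ε₀ ∧
      ∀ {m J : ℕ} {F : Fam m J} {c : ℕ → Fin m} {v i q w W X mm D : ℕ} {γ : ℕ → ℕ}
        {B : F.Ω → Prop} {G₀ : PtT F → ℕ → MvPolynomial (Option (Fin m)) ℝ}
        {H : LnT F → ℕ → MvPolynomial (Option (Fin m)) ℝ} {gg : F.Ω → Fin 1 → ℝ}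
        {ζ ζ' υ' φ' χ₁ χ₂ ρ₁ ρ₂ : Type} {z : F.Ω → ζ} {zw : F.Ω → ζ'} {Yc : F.Ω → υ'}
        {Yf : F.Ω → φ'} {Cj : F.Ω → χ₁} {Cx : F.Ω → χ₂} {Rj : F.Ω → ρ₁} {Rx : F.Ω → ρ₂}
        {p : F.Ω → ℝ} {Nf Nn Nx Nu Nv : Fin 1 → ℕ → ℝ} {Mf Mn : ℕ → ℝ} {U Nb e : ℝ}
        (_ : PrX F c (fun _ : Fin 1 => v) i q w W X mm D K γ B G₀ H gg z zw Yc Yf Cj Cx Rj Rx
          (Vh F c v w H Nb) p Nf Nn Nx Nu Nv Mf Mn U ((Nb - Nv 0 0 * J) * Real.log 2) e)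
        {Ur ψ : ℝ}, ((γ v + q + X : ℕ) : ℝ) ≤ Nb → Nb ≤ (γ v + q + (X + mm) : ℕ) →
        Nv 0 0 * J + X ≤ Nb →
        (∀ a : ℕ, a + ⌊κ * X⌋₊ ≤ X → ∀ E : Set F.Ω, π₀ ≤ Pr p E →
          CH (rs p E) (Mh F c i w H (γ i + q + (a + ⌊κ * X⌋₊)))
            (fun ω => (Mh F c i w H (γ i + q + a) ω, (Vh F c v w H Nb ω,
              (F.T ω, z ω)))) ≤ Ur) →
        TimW F p W j₀ ε₀ ψ → Det p (slam F W) z → X₀ ≤ X → W + X ≤ J →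
        ψ * J ≤ ι * X * Real.log 2 → (mm : ℝ) ≤ ι * X →
        6 * (7 * e + cE0 1 K U + 3 * cN K 0 + cV K) ≤ ι * X →
        3 * (7 * e + cE0 1 K U + 3 * cN K 0 + cV K) + mm * Real.log 2 ≤ ι * X * Real.log 2 →
        Ur + cR 1 K (U + 2) + (4 * (7 * e + cE0 1 K U + 3 * cN K 0 + cV K) +
          mm * Real.log 2 + Real.log 2) / π₀ ≤ (1 - cc) * ⌊κ * X⌋₊ * Real.log 2 →
        ∃ mu : Lam ζ 1 K → Polynomial ℝ, (∀ l, (mu l).natDegree ≤ K) ∧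
          (∀ l a, |(mu l).coeff a| ≤ (K + 1) * 2 ^ ((k₁ + 1) * K) * (U + 1)) ∧
          Pb p (fun ω => (2 : ℝ) ^ (-(κ₂ * X)) < |gg ω 0 -
            (mu ((adG F c (fun _ : Fin 1 => v) i q w W X mm γ gg H z).L K ω)).eval
              (rt F W ω)|) ≤ ε := by
  obtain ⟨κ₂, κ, π₀, ι, ε₀, k₁, j₀, X₀, a1, a2, a3, a4, a5, a6, a7, Hm⟩ :=
    av1_evN K cc ε hcc hε
  refine ⟨κ₂, κ, π₀, ι, ε₀, k₁, j₀, X₀, a1, a2, a3, a4, a5, a6, a7, ?_⟩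
  intro m J F c v i q w W X mm D γ B G₀ H gg ζ ζ' υ' φ' χ₁ χ₂ ρ₁ ρ₂ z zw Yc Yf Cj Cx Rj Rx p
    Nf Nn Nx Nu Nv Mf Mn U Nb e P Ur ψ hN1 hN2 hNX hrow hT hz hX hJ hψ hmm n1 n2 n3
  have hp := P.law
  have h0 := hp.nonneg
  have he : 0 ≤ e := (CH_nonneg h0 _ _).trans P.chj
  -- the pair (Vh, ()) in the place of Vh
  have hV : ∀ {𝓦 : Type} (Z : F.Ω → 𝓦), CH p (Vh F c v w H Nb) Z ≤
      CH p (fun ω => (Vh F c v w H Nb ω, ())) Z := fun Z =>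
    CH_mono_left h0 fun ω ν _ _ e => (Prod.ext_iff.mp (Prod.ext_iff.mp e).1).1
  have Q := prX_prN P
  have Q' : PrN F c (fun _ : Fin 1 => v) i q w W X mm D K γ B G₀ H gg z (fun _ => 0) zw Yc Yf Cj
      Cx Rj Rx (fun ω => (Vh F c v w H Nb ω, ())) p Nf Nn Nx Nu Nv Mf Mn U 0
      ((Nb - Nv 0 0 * J) * Real.log 2 + 0) e := by
    refine ⟨Q.law, Q.sup, Q.wW, Q.WJ, Q.deg, Q.DK, Q.KX, Q.cls, Q.grd, Q.dR, Q.bR, Q.UR0, Q.cR,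
      Q.mU, Q.zT, Q.czy, Q.cyz, Q.ti, Q.mj, Q.mx, Q.chj, Q.chx, Q.zx, Q.n0, Q.n1, Q.x0, Q.x1,
      Q.u0, Q.u1, Q.m0, Q.m1, Q.mf, Q.ac, Q.va, Q.dj, Q.jt, ?_⟩
    rw [add_zero]
    exact Q.vf.trans (hV _)
  obtain ⟨mu, m1, m2, m3⟩ := Hm Q' (Ur := Ur) (ψ := ψ) hN1 hN2 hNX (le_refl 0)
    (fun q' hq' _ => by
      rw [CH_eq_zero hq'.nonneg (fun _ _ _ _ _ => rfl), zero_add]
      exact he)
    (fun ω ν _ _ _ _ _ => by
      simp only [Polynomial.eval_zero, sub_self, abs_zero, le_refl])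
    (fun a ha E hE => by
      refine le_trans ?_ (hrow a ha E hE)
      have hE0 : 0 < law p (fun ω => ω ∈ E) True := lt_of_lt_of_le a5 hE
      have hE' : IsLaw (rs p E) :=
        ⟨cond_nonneg h0 (fun ω => ω ∈ E) True, sum_cond p (fun ω => ω ∈ E) hE0.ne'⟩
      refine CH_mono_cond hE'.nonneg fun ω ν hω hν e => ?_
      simp only [Prod.mk.injEq] at e ⊢
      exact ⟨e.1, e.2.1.1, e.2.2⟩)
    hT hz (fun _ _ _ _ _ => rfl) hX hJ hψ hmm n1 n2 (by rw [add_zero]; exact n3)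
  refine ⟨mu, m1, m2, ?_⟩
  rw [adN_zero] at m3
  exact m3

end Pool.AVG66
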