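import Pool.Agent.H66.AVG.Pnr
import Pool.Agent.H66.AVG.Clb
import Pool.Agent.H57.AVX.Evx

/-!
# Closed gradients on one event, for a corrected path of the target

`avg_genN`: the gradient is a polynomial of bounded degree with bounded coefficients, a function of the
code of the line; from the inputs `PrN`. `av1_evN`: one moved place, with near digits `Vu` of other
places.
-/

set_option autoImplicit false

namespace Pool.AVG66

open Finset Real MvPolynomial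
open Pool.Agent.H49.Ent Pool.Agent.H32.Dense Pool.STK Pool.KA Pool.KSAT Pool.K2S Pool.PB Pool.S6C
open Pool.GEN Pool.CHT Pool.CHX Pool.ISO Pool.LA91 Pool.AVG71 Pool.AVG5 Pool.AVG57 Pool.D2F2
open Pool.PB.Trl (rt rt_mem t_rt)
open Pool.D2R (hgt)
open Pool.KVA (MI)
open Pool.KAF (rs Pr)
open Pool.BFL (Pb)

variable {m J : ℕ}

section

variable {F : Fam m J} {c : ℕ → Fin m} {k : ℕ} {mv : Fin k → ℕ} {i q w W X mm : ℕ} {γ : ℕ → ℕ}
  {gg : F.Ω → Fin k → ℝ} {H : LnT F → ℕ → MvPolynomial (Option (Fin m)) ℝ} {ζ : Type}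
  {z : F.Ω → ζ} {R : F.Ω → Polynomial ℝ}

/-- The code of the line is a function of the line. -/
theorem adN_L (p : F.Ω → ℝ) (hz : Det p (slam F W) z) (hR : Det p (slam F W) R) (K : ℕ) :
    Det p (slam F W) ((adN F c mv i q w W X mm γ gg H z R).L K) := by
  intro ω ν hω hν e
  have e0 := adG_L (c := c) (mv := mv) (i := i) (q := q) (w := w) (X := X) (mm := mm)
    (γ := γ) (gg := gg) (H := H) p hz K ω ν hω hν e
  have e1 := hz ω ν hω hν e
  have z1 : (adN F c mv i q w W X mm γ gg H z R).z ω =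
      (adN F c mv i q w W X mm γ gg H z R).z ν := e1
  have P1 : (adN F c mv i q w W X mm γ gg H z R).P ω =
      (adN F c mv i q w W X mm γ gg H z R).P ν := by
    show Polynomial.C (2 ^ (γ i + q)) * dv W (fun s (_ : Fin m) => H (upw w W s) i)
      (c i) (slam F W ω) - R ω = Polynomial.C (2 ^ (γ i + q)) *
      dv W (fun s (_ : Fin m) => H (upw w W s) i) (c i) (slam F W ν) - R ν
    rw [e, hR ω ν hω hν e]
  have A1 : (adN F c mv i q w W X mm γ gg H z R).ac K ω =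
      (adN F c mv i q w W X mm γ gg H z R).ac K ν := (Prod.ext_iff.mp (Prod.ext_iff.mp e0).2).1
  unfold AD.L
  rw [z1, A1]
  unfold AD.nc
  rw [P1]

/-- **The field `ti`.** -/
theorem adN_ti {p : F.Ω → ℝ} (hp : IsLaw p) {j₀ : ℕ} {ε₀ ψ : ℝ} (hT : TimW F p W j₀ ε₀ ψ)
    (hz : Det p (slam F W) z) (hR : Det p (slam F W) R) (hzT : Det p z (F.T1 W)) (K : ℕ) :
    MI p (rt F W) ((adN F c mv i q w W X mm γ gg H z R).L K)
      ((adN F c mv i q w W X mm γ gg H z R).g K) ≤ ψ * J := by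
  have h0 := hp.nonneg
  have hW : W ≤ J := by
    have := hT.le
    omega
  have hL := adN_L (c := c) (mv := mv) (i := i) (q := q) (w := w) (X := X) (mm := mm)
    (γ := γ) (gg := gg) (H := H) p hz hR K
  have hg : Det p (slam F W) ((adN F c mv i q w W X mm γ gg H z R).g K) := fun ω ν a b e =>
    AD.g_of (hL ω ν a b e)
  have hgW : Det p ((adN F c mv i q w W X mm γ gg H z R).g K) (F.T1 W) := fun ω ν a b e =>
    hzT ω ν a b (Prod.ext_iff.mp e).1
  have h1 := mi_tim_code hp hT ((adN F c mv i q w W X mm γ gg H z R).g K) hg hgW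
    ((adN F c mv i q w W X mm γ gg H z R).L K) hL (fun _ => ()) (fun _ => ())
    (fun _ _ _ _ _ => rfl) (E := 0) (by
      have e1 : MI p (fun _ : F.Ω => ()) ((adN F c mv i q w W X mm γ gg H z R).L K)
          (fun ω => (F.tw W ω, (adN F c mv i q w W X mm γ gg H z R).g K ω)) = 0 := by
        rw [MI_eq h0, CH_eq_zero h0 (fun _ _ _ _ _ => rfl), CH_eq_zero h0 (fun _ _ _ _ _ => rfl),
          sub_zero]
      exact le_of_eq e1)
  rw [add_zero] at h1
  refine le_trans (le_of_eq ?_) h1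
  have e0 : rt F W = F.tw W := by
    funext ω
    exact (tw_rt F hW ω).symm
  rw [e0, MI_eq h0, MI_eq h0]
  congr 1
  · refine CH_congr h0 (fun ω ν _ _ e => ?_) (fun ω ν _ _ e => ?_) (fun _ _ _ _ h => h)
      (fun _ _ _ _ h => h)
    · exact Prod.ext (Prod.ext_iff.mp e).1 rfl
    · exact (Prod.ext_iff.mp (Prod.ext_iff.mp e).1).1
  · refine CH_congr h0 (fun ω ν _ _ e => ?_) (fun ω ν _ _ e => ?_) (fun _ _ _ _ h => h)
      (fun _ _ _ _ h => h)
    · exact Prod.ext (Prod.ext_iff.mp e).1 rfl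
    · exact (Prod.ext_iff.mp (Prod.ext_iff.mp e).1).1

end

/-- **Closed gradients on one event**, for the path of the target minus `R`. -/
theorem avg_genN (k K : ℕ) (cc ε : ℝ) (hcc : 0 < cc) (hε : 0 < ε) :
    ∃ (κ₂ κ π₀ ι ε₀ : ℝ) (k₁ j₀ X₀ : ℕ), 0 < κ₂ ∧ κ₂ ≤ 1 ∧ 0 < κ ∧ κ ≤ 1 ∧ 0 < π₀ ∧ 0 < ι ∧
      0 < ε₀ ∧
      ∀ {m J : ℕ} {F : Fam m J} {c : ℕ → Fin m} {mv : Fin k → ℕ} {i q w W X mm D : ℕ} {γ : ℕ → ℕ}
        {B : F.Ω → Prop} {G₀ : PtT F → ℕ → MvPolynomial (Option (Fin m)) ℝ}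
        {H : LnT F → ℕ → MvPolynomial (Option (Fin m)) ℝ} {gg : F.Ω → Fin k → ℝ}
        {ζ ζ' υ' φ' χ₁ χ₂ ρ₁ ρ₂ υ : Type} {z : F.Ω → ζ} {zw : F.Ω → ζ'} {Yc : F.Ω → υ'}
        {Yf : F.Ω → φ'} {Cj : F.Ω → χ₁} {Cx : F.Ω → χ₂} {Rj : F.Ω → ρ₁} {Rx : F.Ω → ρ₂} {V : F.Ω → υ}
        {M : F.Ω → ℤ} {p : F.Ω → ℝ} {Nf Nn Nx Nu Nv : Fin k → ℕ → ℝ} {Mf Mn : ℕ → ℝ}
        {U UR Fv e : ℝ} {R : F.Ω → Polynomial ℝ}
        (_ : PrN F c mv i q w W X mm D K γ B G₀ H gg z R zw Yc Yf Cj Cx Rj Rx V p Nf Nn Nx Nu Nv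
          Mf Mn U UR Fv e)
        {Ur Bq eV ψ : ℝ}, 0 ≤ Bq → 0 ≤ eV →
        (∀ q' : F.Ω → ℝ, IsLaw q' → (∀ ω, 0 < q' ω → 0 < p ω) →
          CH q' V (fun ω => ((adN F c mv i q w W X mm γ gg H z R).T ω,
            (adN F c mv i q w W X mm γ gg H z R).g K ω)) ≤ Fv + eV) →
        CH p V (fun ω => ((adN F c mv i q w W X mm γ gg H z R).Y K ω,
          (rt F W ω, (adN F c mv i q w W X mm γ gg H z R).g K ω))) ≤
          Fv + eV - k * X * Real.log 2 →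
        (∀ ω ω', 0 < p ω → 0 < p ω' → V ω = V ω' →
          (adN F c mv i q w W X mm γ gg H z R).T ω = (adN F c mv i q w W X mm γ gg H z R).T ω' →
          (adN F c mv i q w W X mm γ gg H z R).g K ω =
            (adN F c mv i q w W X mm γ gg H z R).g K ω' →
          |((adN F c mv i q w W X mm γ gg H z R).Q ω - M ω) -
            ((adN F c mv i q w W X mm γ gg H z R).Q ω' - M ω')| ≤ Bq) →
        (∀ j : ℕ, (j + 1) * ⌊κ * X⌋₊ ≤ X → ∀ E : Set F.Ω, π₀ ≤ Pr p E →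
          CH (rs p E) (fun ω => M ω / 2 ^ (X - (j + 1) * ⌊κ * X⌋₊))
            (fun ω => (M ω / 2 ^ (X - j * ⌊κ * X⌋₊), (V ω,
              ((adN F c mv i q w W X mm γ gg H z R).T ω,
                (adN F c mv i q w W X mm γ gg H z R).g K ω)))) ≤ Ur) →
        TimW F p W j₀ ε₀ ψ → Det p (slam F W) z →
        Det p (slam F W) R → X₀ ≤ X → W + X ≤ J →
        ψ * J ≤ ι * X * Real.log 2 → (mm : ℝ) ≤ ι * X →
        6 * (6 * e + cE0 k K U + 2 * cN K UR + eV) ≤ ι * X →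
        3 * (6 * e + cE0 k K U + 2 * cN K UR + eV) + k * mm * Real.log 2 ≤ ι * X * Real.log 2 →
        Ur + cR k K Bq + (4 * (6 * e + cE0 k K U + 2 * cN K UR + eV) + k * mm * Real.log 2 + Real.log 2) / π₀ ≤
          (1 - cc) * ⌊κ * X⌋₊ * Real.log 2 →
        ∃ mu : Lam ζ k K → Fin k → Polynomial ℝ, (∀ l j, (mu l j).natDegree ≤ K) ∧
          (∀ l j a, |(mu l j).coeff a| ≤ (K + 1) * 2 ^ ((k₁ + 1) * K) * (U + 1)) ∧
          Pb p (fun ω => ∃ j : Fin k, (2 : ℝ) ^ (-(κ₂ * X)) < |gg ω j -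
            (mu ((adN F c mv i q w W X mm γ gg H z R).L K ω) j).eval (rt F W ω)|) ≤ ε := by
  classical
  obtain ⟨κ₂, κ, π₀, ι, ε₀, k₁, j₀, X₀, a1, a2, a3, a4, a5, a6, Hm⟩ := ad_cloC k K cc ε hcc hε
  obtain ⟨κ₃, hκ₃⟩ : ∃ κ₃ : ℝ, κ₃ = min κ₂ 1 / 2 := ⟨_, rfl⟩
  have hm0 : 0 < min κ₂ 1 := lt_min a1 one_pos
  have hκ0 : 0 < κ₃ := by
    rw [hκ₃]
    positivity
  have hκ1 : κ₃ ≤ 1 := by
    rw [hκ₃]
    have := min_le_right κ₂ (1 : ℝ)
    linarith
  refine ⟨κ₃, κ, π₀, ι, ε₀, k₁, j₀, max X₀ ⌈1 / κ₃⌉₊, hκ0, hκ1, a2, a3, a4, a5, a6, ?_⟩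
  intro m J F c mv i q w W X mm D γ B G₀ H gg ζ ζ' υ' φ' χ₁ χ₂ ρ₁ ρ₂ υ z zw Yc Yf Cj Cx Rj Rx V M p Nf
    Nn Nx Nu Nv Mf Mn U UR Fv e R P Ur Bq eV ψ hB0 heV hvb hvy hqv hrow hT hz hR hX hJ hψ hmm n1 n2
    n3
  have hp := P.law
  have h0 := hp.nonneg
  have hW := P.WJ
  have hyp := P.hyp hB0 heV hvb hvy hqv hrow
  have he : 0 ≤ e := (CH_nonneg h0 _ _).trans P.chj
  have hU := P.grd.U0
  have hcE : 0 ≤ cE0 k K U := by
    have hcJ := cJ_nonneg K
    have hcA := cA_nonneg K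
    have hl5 : 0 ≤ Real.log 5 := Real.log_nonneg (by norm_num)
    have hlU : 0 ≤ Real.log (2 * (U + 1) + 1) := Real.log_nonneg (by linarith)
    have hlN : 0 ≤ Real.log (2 * (U + 4 * k + 2 * ((K + 1) * (k + 1)) + 1) + 1) := by
      refine Real.log_nonneg ?_
      have : (0 : ℝ) ≤ 4 * k + 2 * ((K + 1) * (k + 1)) := by positivity
      linarith
    unfold cE0
    positivity
  have hX0 : X₀ ≤ X := (le_max_left _ _).trans hX
  have hXκ : 1 ≤ κ₃ * X := by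
    have h1 : (⌈1 / κ₃⌉₊ : ℝ) ≤ X := by exact_mod_cast (le_max_right _ _).trans hX
    have h2 : 1 / κ₃ ≤ X := (Nat.le_ceil _).trans h1
    rwa [div_le_iff₀ hκ0, mul_comm] at h2
  have hN0 := cN_nonneg (K := K) P.UR0
  have hLs := adN_L (c := c) (mv := mv) (i := i) (q := q) (w := w) (X := X) (mm := mm)
    (γ := γ) (gg := gg) (H := H) p hz hR K
  have hth : (adN F c mv i q w W X mm γ gg H z R).th = F.tw W := by
    funext ω
    exact (tw_rt F hW ω).symm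
  have hbm : ∀ ω, 0 < p ω → ∀ j, |(adN F c mv i q w W X mm γ gg H z R).bb ω j| ≤
      (2 : ℝ) ^ (ι * X) := by
    intro ω hω j
    refine (hyp.bm ω hω j).trans ?_
    show (2 : ℝ) ^ mm ≤ _
    rw [← Real.rpow_natCast 2 mm]
    exact Real.rpow_le_rpow_of_exponent_le one_le_two hmm
  have h1f : (1 - ι) * X * Real.log 2 ≤
      CH p (fun ω => ⌊(2 : ℝ) ^ X * (adN F c mv i q w W X mm γ gg H z R).th ω⌋)
        ((adN F c mv i q w W X mm γ gg H z R).L K) := by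
    have h1 := hT.f X hJ
    have h2 : CH p (fun ω => ⌊(2 : ℝ) ^ X * F.tw W ω⌋) (slam F W) ≤
        CH p (fun ω => ⌊(2 : ℝ) ^ X * F.tw W ω⌋) ((adN F c mv i q w W X mm γ gg H z R).L K) :=
      CH_mono_cond h0 hLs
    rw [hth]
    have h3 : (1 - ι) * X * Real.log 2 = X * Real.log 2 - ι * X * Real.log 2 := by ring
    linarith
  have h1a : j₀ * Real.log 2 - ε₀ ≤
      CH p (fun ω => ⌊(2 : ℝ) ^ j₀ * (adN F c mv i q w W X mm γ gg H z R).th ω⌋)
        ((adN F c mv i q w W X mm γ gg H z R).L K) := by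
    have h2 : CH p (fun ω => ⌊(2 : ℝ) ^ j₀ * F.tw W ω⌋) (slam F W) ≤
        CH p (fun ω => ⌊(2 : ℝ) ^ j₀ * F.tw W ω⌋) ((adN F c mv i q w W X mm γ gg H z R).L K) :=
      CH_mono_cond h0 hLs
    rw [hth]
    exact hT.a.trans h2
  obtain ⟨mu, m1, m2, m3⟩ := Hm p (adN F c mv i q w W X mm γ gg H z R) Rj Rx _ _ _ _ V M _ _ Bq Ur
    (U + 1) hX0 (by positivity) (by linarith) (fun ω hω j => adN_bm P.grd (P.sup ω hω) j) hyp hbm
    h1f h1a n1 n2 n3
  refine ⟨mu, m1, m2, le_trans ?_ m3⟩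
  unfold Pb
  refine Finset.sum_le_sum fun ω _ => ?_
  by_cases h6 : ∃ j : Fin k, (2 : ℝ) ^ (-(κ₃ * X)) < |gg ω j -
      (mu ((adN F c mv i q w W X mm γ gg H z R).L K ω) j).eval (rt F W ω)|
  · rw [if_pos h6]
    by_cases hω : 0 < p ω
    · rw [if_pos ?_]
      obtain ⟨j, hj⟩ := h6
      refine ⟨j, ?_⟩
      have e2 : (adN F c mv i q w W X mm γ gg H z R).th ω = rt F W ω := rfl
      have e3 : (adN F c mv i q w W X mm γ gg H z R).X = X := rfl
      have e4 : |gg ω j - (adN F c mv i q w W X mm γ gg H z R).bb ω j| ≤ 1 / 2 ^ X :=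
        adG_bbr (c := c) (mv := mv) (i := i) (q := q) (w := w) (W := W) (X := X)
        (mm := mm) (γ := γ) (gg := gg) (H := H) (z := z) ω j
      have e5 : (1 : ℝ) / 2 ^ X ≤ 2 ^ (-(2 * κ₃ * X)) := by
        rw [one_div, ← Real.rpow_natCast, ← Real.rpow_neg two_pos.le]
        refine Real.rpow_le_rpow_of_exponent_le one_le_two ?_
        have h1 : 2 * κ₃ ≤ 1 := by
          rw [hκ₃]
          have := min_le_right κ₂ (1 : ℝ)
          linarith
        have h2 : 2 * κ₃ * X ≤ 1 * X := mul_le_mul_of_nonneg_right h1 (Nat.cast_nonneg X)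
        linarith
      have e6 : (2 : ℝ) ^ (-(κ₂ * X)) ≤ 2 ^ (-(2 * κ₃ * X)) := by
        refine Real.rpow_le_rpow_of_exponent_le one_le_two ?_
        have h1 : 2 * κ₃ ≤ κ₂ := by
          rw [hκ₃]
          have := min_le_left κ₂ (1 : ℝ)
          linarith
        have h2 : 2 * κ₃ * X ≤ κ₂ * X := mul_le_mul_of_nonneg_right h1 (Nat.cast_nonneg X)
        linarith
      have e7 : 2 * (2 : ℝ) ^ (-(2 * κ₃ * X)) ≤ 2 ^ (-(κ₃ * X)) := by
        have h1 : 2 * (2 : ℝ) ^ (-(2 * κ₃ * X)) = 2 ^ (1 + -(2 * κ₃ * X)) := by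
          rw [Real.rpow_add two_pos, Real.rpow_one]
        rw [h1]
        refine Real.rpow_le_rpow_of_exponent_le one_le_two ?_
        linarith
      have e8 := abs_sub_le (gg ω j)
        ((adN F c mv i q w W X mm γ gg H z R).bb ω j)
        ((mu ((adN F c mv i q w W X mm γ gg H z R).L K ω) j).eval (rt F W ω))
      rw [e2, e3]
      linarith
    · have : p ω = 0 := le_antisymm (not_lt.1 hω) (h0 ω)
      rw [this]
      split_ifs <;> exact le_rfl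
  · rw [if_neg h6]
    split_ifs
    · exact h0 ω
    · exact le_rfl

/-- **Closed gradient in the direction of one moved place**, on one event; `Vu`: near digits of other
places, with at most `Fu` bits given time and context. -/
theorem av1_evN (K : ℕ) (cc ε : ℝ) (hcc : 0 < cc) (hε : 0 < ε) :
    ∃ (κ₂ κ π₀ ι ε₀ : ℝ) (k₁ j₀ X₀ : ℕ), 0 < κ₂ ∧ κ₂ ≤ 1 ∧ 0 < κ ∧ κ ≤ 1 ∧ 0 < π₀ ∧ 0 < ι ∧
      0 < ε₀ ∧
      ∀ {m J : ℕ} {F : Fam m J} {c : ℕ → Fin m} {v i q w W X mm D : ℕ} {γ : ℕ → ℕ}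
        {B : F.Ω → Prop} {G₀ : PtT F → ℕ → MvPolynomial (Option (Fin m)) ℝ}
        {H : LnT F → ℕ → MvPolynomial (Option (Fin m)) ℝ} {gg : F.Ω → Fin 1 → ℝ}
        {ζ ζ' υ' φ' χ₁ χ₂ ρ₁ ρ₂ υ : Type} {z : F.Ω → ζ} {zw : F.Ω → ζ'} {Yc : F.Ω → υ'}
        {Yf : F.Ω → φ'} {Cj : F.Ω → χ₁} {Cx : F.Ω → χ₂} {Rj : F.Ω → ρ₁} {Rx : F.Ω → ρ₂}
        {Vu : F.Ω → υ} {R : F.Ω → Polynomial ℝ}
        {p : F.Ω → ℝ} {Nf Nn Nx Nu Nv : Fin 1 → ℕ → ℝ} {Mf Mn : ℕ → ℝ} {U UR Nb Fu BR e : ℝ}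
        (_ : PrN F c (fun _ : Fin 1 => v) i q w W X mm D K γ B G₀ H gg z R zw Yc Yf Cj Cx Rj Rx
          (fun ω => (Vh F c v w H Nb ω, Vu ω)) p Nf Nn Nx Nu Nv Mf Mn U UR
          ((Nb - Nv 0 0 * J) * Real.log 2 + Fu) e)
        {Ur ψ : ℝ}, ((γ v + q + X : ℕ) : ℝ) ≤ Nb → Nb ≤ (γ v + q + (X + mm) : ℕ) →
        Nv 0 0 * J + X ≤ Nb → 0 ≤ BR →
        (∀ q' : F.Ω → ℝ, IsLaw q' → (∀ ω, 0 < q' ω → 0 < p ω) →
          CH q' Vu (fun ω => (rt F W ω, z ω)) ≤ Fu + e) →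
        (∀ ω ν, 0 < p ω → 0 < p ν → Vu ω = Vu ν → rt F W ω = rt F W ν → z ω = z ν →
          |2 ^ X * (R ω).eval (rt F W ω) - 2 ^ X * (R ν).eval (rt F W ν)| ≤ BR) →
        (∀ a : ℕ, a + ⌊κ * X⌋₊ ≤ X → ∀ E : Set F.Ω, π₀ ≤ Pr p E →
          CH (rs p E) (Mh F c i w H (γ i + q + (a + ⌊κ * X⌋₊)))
            (fun ω => (Mh F c i w H (γ i + q + a) ω, ((Vh F c v w H Nb ω, Vu ω),
              (F.T ω, z ω)))) ≤ Ur) →
        TimW F p W j₀ ε₀ ψ → Det p (slam F W) z → Det p (slam F W) R → X₀ ≤ X → W + X ≤ J →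
        ψ * J ≤ ι * X * Real.log 2 → (mm : ℝ) ≤ ι * X →
        6 * (7 * e + cE0 1 K U + 3 * cN K UR + cV K) ≤ ι * X →
        3 * (7 * e + cE0 1 K U + 3 * cN K UR + cV K) + mm * Real.log 2 ≤ ι * X * Real.log 2 →
        Ur + cR 1 K (U + 2 + BR) + (4 * (7 * e + cE0 1 K U + 3 * cN K UR + cV K) +
          mm * Real.log 2 + Real.log 2) / π₀ ≤ (1 - cc) * ⌊κ * X⌋₊ * Real.log 2 →
        ∃ mu : Lam ζ 1 K → Polynomial ℝ, (∀ l, (mu l).natDegree ≤ K) ∧
          (∀ l a, |(mu l).coeff a| ≤ (K + 1) * 2 ^ ((k₁ + 1) * K) * (U + 1)) ∧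
          Pb p (fun ω => (2 : ℝ) ^ (-(κ₂ * X)) < |gg ω 0 -
            (mu ((adN F c (fun _ : Fin 1 => v) i q w W X mm γ gg H z R).L K ω)).eval
              (rt F W ω)|) ≤ ε := by
  obtain ⟨κ₂, κ, π₀, ι, ε₀, k₁, j₀, X₀, a1, a2, a3, a4, a5, a6, a7, Hm⟩ :=
    avg_genN 1 K cc ε hcc hε
  refine ⟨κ₂, κ, π₀, ι, ε₀, k₁, j₀, X₀, a1, a2, a3, a4, a5, a6, a7, ?_⟩
  intro m J F c v i q w W X mm D γ B G₀ H gg ζ ζ' υ' φ' χ₁ χ₂ ρ₁ ρ₂ υ z zw Yc Yf Cj Cx Rj Rx Vu R p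
    Nf Nn Nx Nu Nv Mf Mn U UR Nb Fu BR e P Ur ψ hN1 hN2 hNX hBR hVu hRV hrow hT hz hR hX hJ hψ hmm
    n1 n2 n3
  have hp := P.law
  have h0 := hp.nonneg
  have hwW := P.wW
  have hW := P.WJ
  have hU := P.grd.U0
  have hN0 := cN_nonneg (K := K) P.UR0
  have he : 0 ≤ e := (CH_nonneg h0 _ _).trans P.chj
  have hl2 : 0 < Real.log 2 := Real.log_pos one_lt_two
  have hF : (X : ℝ) * Real.log 2 ≤ (Nb - Nv 0 0 * J) * Real.log 2 :=
    mul_le_mul_of_nonneg_right (by linarith) hl2.le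
  have hbm : ∀ ω, 0 < p ω →
      |(adG F c (fun _ : Fin 1 => v) i q w W X mm γ gg H z).bb ω 0| ≤ U + 1 :=
    fun ω hω => adN_bm (w := w) (mm := mm) (H := H) P.grd (P.sup ω hω) 0
  have eE : 6 * e + cE0 1 K U + 2 * cN K UR + (cV K + cN K UR + e) =
    7 * e + cE0 1 K U + 3 * cN K UR + cV K := by ring
  -- the digits of the moved place
  have hVY : ∀ q' : F.Ω → ℝ, IsLaw q' → (∀ ω, 0 < q' ω → 0 < p ω) → ∀ {𝓦 : Type}
      (Z : F.Ω → 𝓦), (∀ ω ν, 0 < q' ω → 0 < q' ν → Z ω = Z ν → rt F W ω = rt F W ν ∧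
        (adN F c (fun _ : Fin 1 => v) i q w W X mm γ gg H z R).Y K ω =
          (adN F c (fun _ : Fin 1 => v) i q w W X mm γ gg H z R).Y K ν ∧
        (adN F c (fun _ : Fin 1 => v) i q w W X mm γ gg H z R).g K ω =
          (adN F c (fun _ : Fin 1 => v) i q w W X mm γ gg H z R).g K ν) →
      CH q' (Vh F c v w H Nb) Z ≤ cV K + cN K UR := by
    intro q' hq' hpos 𝓦 Z hZ
    have a1 := CH_le_add hq'.nonneg (Vh F c v w H Nb)
      ((adG F c (fun _ : Fin 1 => v) i q w W X mm γ gg H z).g K) Z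
    have a2 := vy_h (c := c) (v := v) (i := i) (γ := γ) (gg := gg) (z := z) hq' P.deg P.DK hwW
      hW hN2 (fun ω => ((adG F c (fun _ : Fin 1 => v) i q w W X mm γ gg H z).g K ω, Z ω))
      (fun ω ν hω hν e => by
        obtain ⟨e1, e2⟩ := Prod.ext_iff.mp e
        obtain ⟨e3, e4, e5⟩ := hZ ω ν hω hν e2
        exact ⟨e3, e4, e1⟩)
    have a3 : CH q' ((adG F c (fun _ : Fin 1 => v) i q w W X mm γ gg H z).g K) Z ≤
        cN K UR := by
      refine le_trans (CH_mono_cond hq'.nonneg fun ω ν hω hν e => (hZ ω ν hω hν e).2.2)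
        (g_few (c := c) (mv := fun _ : Fin 1 => v) (i := i) (q := q) (w := w) (W := W) (X := X)
          (mm := mm) (γ := γ) (gg := gg) (H := H) (z := z) (R := R) (K := K) hq' P.UR0
          (fun ω hω => P.bR ω (hpos ω hω)))
    linarith
  have hVz : ∀ q' : F.Ω → ℝ, IsLaw q' → (∀ ω, 0 < q' ω → 0 < p ω) → ∀ {𝓦 : Type}
      (Z : F.Ω → 𝓦), (∀ ω ν, Z ω = Z ν → rt F W ω = rt F W ν ∧
        (adN F c (fun _ : Fin 1 => v) i q w W X mm γ gg H z R).g K ω =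
          (adN F c (fun _ : Fin 1 => v) i q w W X mm γ gg H z R).g K ν) →
      CH q' Vu Z ≤ Fu + e := by
    intro q' hq' hpos 𝓦 Z hZ
    refine le_trans (CH_mono_cond hq'.nonneg fun ω ν _ _ e => ?_) (hVu q' hq' hpos)
    obtain ⟨e1, e2⟩ := hZ ω ν e
    exact Prod.ext e1 (Prod.ext_iff.mp e2).1
  obtain ⟨mu, m1, m2, m3⟩ := Hm P (Ur := Ur) (Bq := U + 2 + BR) (eV := cV K + cN K UR + e)
    (ψ := ψ)
    (M := Mh F c i w H (γ i + q + X)) (by linarith) (by have := cV_nonneg K; linarith)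
    (fun q' hq' hpos => by
      have s0 := CH_subadd hq'.nonneg (Vh F c v w H Nb) Vu
        (fun ω => ((adN F c (fun _ : Fin 1 => v) i q w W X mm γ gg H z R).T ω,
          (adN F c (fun _ : Fin 1 => v) i q w W X mm γ gg H z R).g K ω))
      have s1 := CH_le_add hq'.nonneg (Vh F c v w H Nb)
        ((adN F c (fun _ : Fin 1 => v) i q w W X mm γ gg H z R).Y K)
        (fun ω => ((adN F c (fun _ : Fin 1 => v) i q w W X mm γ gg H z R).T ω,
          (adN F c (fun _ : Fin 1 => v) i q w W X mm γ gg H z R).g K ω))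
      have s2 := CH_Y1 hq' (adN F c (fun _ : Fin 1 => v) i q w W X mm γ gg H z R) K
        (fun ω => ((adN F c (fun _ : Fin 1 => v) i q w W X mm γ gg H z R).T ω,
          (adN F c (fun _ : Fin 1 => v) i q w W X mm γ gg H z R).g K ω))
      have s3 := hVY q' hq' hpos (fun ω =>
        ((adN F c (fun _ : Fin 1 => v) i q w W X mm γ gg H z R).Y K ω,
        ((adN F c (fun _ : Fin 1 => v) i q w W X mm γ gg H z R).T ω,
          (adN F c (fun _ : Fin 1 => v) i q w W X mm γ gg H z R).g K ω)))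
        (fun ω ν _ _ e => by
          simp only [Prod.mk.injEq] at e
          exact ⟨(Prod.ext_iff.mp e.2.1).1, e.1, e.2.2⟩)
      have s5 := hVz q' hq' hpos (fun ω =>
        ((adN F c (fun _ : Fin 1 => v) i q w W X mm γ gg H z R).T ω,
          (adN F c (fun _ : Fin 1 => v) i q w W X mm γ gg H z R).g K ω))
        (fun ω ν e => by
          obtain ⟨e1, e2⟩ := Prod.ext_iff.mp e
          exact ⟨(Prod.ext_iff.mp e1).1, e2⟩)
      have s4 : ((adN F c (fun _ : Fin 1 => v) i q w W X mm γ gg H z R).X : ℝ) = X := rfl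
      rw [s4] at s2
      linarith)
    (by
      have s0 := CH_subadd h0 (Vh F c v w H Nb) Vu
        (fun ω => ((adN F c (fun _ : Fin 1 => v) i q w W X mm γ gg H z R).Y K ω,
        (rt F W ω, (adN F c (fun _ : Fin 1 => v) i q w W X mm γ gg H z R).g K ω)))
      have s3 := hVY p hp (fun _ h => h) (fun ω =>
        ((adN F c (fun _ : Fin 1 => v) i q w W X mm γ gg H z R).Y K ω,
        (rt F W ω, (adN F c (fun _ : Fin 1 => v) i q w W X mm γ gg H z R).g K ω)))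
        (fun ω ν _ _ e => by
          simp only [Prod.mk.injEq] at e
          exact ⟨e.2.1, e.1, e.2.2⟩)
      have s5 := hVz p hp (fun _ h => h) (fun ω =>
        ((adN F c (fun _ : Fin 1 => v) i q w W X mm γ gg H z R).Y K ω,
        (rt F W ω, (adN F c (fun _ : Fin 1 => v) i q w W X mm γ gg H z R).g K ω)))
        (fun ω ν e => by
          simp only [Prod.mk.injEq] at e
          exact ⟨e.2.1, e.2.2⟩)
      push_cast
      linarith)
    (fun ω ν hω hν hV hTT hgg => by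
      obtain ⟨v1, v2⟩ := Prod.ext_iff.mp hV
      have b1 := qv_h (c := c) (i := i) (γ := γ) (gg := gg) (z := z) hwW hW hN1 (hbm ω hω) v1 hTT
      have b2 := hRV ω ν hω hν v2 (Prod.ext_iff.mp hTT).1 (Prod.ext_iff.mp hgg).1
      have q1 : ∀ o : F.Ω, (adN F c (fun _ : Fin 1 => v) i q w W X mm γ gg H z R).Q o =
          (adG F c (fun _ : Fin 1 => v) i q w W X mm γ gg H z).Q o -
            2 ^ X * (R o).eval (rt F W o) := by
        intro o
        have e1 : (adN F c (fun _ : Fin 1 => v) i q w W X mm γ gg H z R).Q o = 2 ^ X *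
            (((adG F c (fun _ : Fin 1 => v) i q w W X mm γ gg H z).P o - R o).eval (rt F W o) -
            ∑ j, (adG F c (fun _ : Fin 1 => v) i q w W X mm γ gg H z).bb o j *
            ((adG F c (fun _ : Fin 1 => v) i q w W X mm γ gg H z).A o j).eval (rt F W o)) :=
          rfl
        have e2 : (adG F c (fun _ : Fin 1 => v) i q w W X mm γ gg H z).Q o = 2 ^ X *
            (((adG F c (fun _ : Fin 1 => v) i q w W X mm γ gg H z).P o).eval (rt F W o) -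
            ∑ j, (adG F c (fun _ : Fin 1 => v) i q w W X mm γ gg H z).bb o j *
            ((adG F c (fun _ : Fin 1 => v) i q w W X mm γ gg H z).A o j).eval (rt F W o)) :=
          rfl
        rw [e1, e2, Polynomial.eval_sub]
        ring
      rw [q1 ω, q1 ν]
      have c1 := abs_le.mp b1
      have c2 := abs_le.mp b2
      rw [abs_le]
      constructor <;> linarith [c1.1, c1.2, c2.1, c2.2])
    (fun j hj E hE => by
      have e1 : ∀ (a : ℕ), a ≤ X → ∀ ω, Mh F c i w H (γ i + q + X) ω / 2 ^ (X - a) =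
          Mh F c i w H (γ i + q + a) ω := by
        intro a ha ω
        unfold Mh
        obtain ⟨x, hx⟩ : ∃ x, x = ojet F (c i) 0 (H (slam F w ω) i) ω := ⟨_, rfl⟩
        rw [← hx]
        have h1 := Int.floor_div_natCast ((2 : ℝ) ^ (γ i + q + X) * x) (2 ^ (X - a))
        have e1 : (2 : ℝ) ^ (γ i + q + X) * x / ((2 ^ (X - a) : ℕ) : ℝ) =
            2 ^ (γ i + q + a) * x := by
          have e2 : (2 : ℝ) ^ (γ i + q + X) = 2 ^ (γ i + q + a) * 2 ^ (X - a) := by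
            rw [← pow_add]
            congr 1
            omega
          rw [e2]
          push_cast
          field_simp
        rw [e1] at h1
        push_cast at h1
        exact h1.symm
      have hj1 : j * ⌊κ * X⌋₊ + ⌊κ * X⌋₊ ≤ X := by
        rw [add_mul, one_mul] at hj
        exact hj
      have r1 := hrow (j * ⌊κ * X⌋₊) hj1 E hE
      have r2 : (fun ω => Mh F c i w H (γ i + q + X) ω / 2 ^ (X - (j + 1) * ⌊κ * X⌋₊)) =
          Mh F c i w H (γ i + q + (j * ⌊κ * X⌋₊ + ⌊κ * X⌋₊)) := by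
        funext ω
        rw [add_mul, one_mul]
        exact e1 _ hj1 ω
      have hE0 : 0 < law p (fun ω => ω ∈ E) True := lt_of_lt_of_le a5 hE
      have hE' : IsLaw (rs p E) :=
        ⟨cond_nonneg h0 (fun ω => ω ∈ E) True, sum_cond p (fun ω => ω ∈ E) hE0.ne'⟩
      have hqp : ∀ ω, 0 < rs p E ω → 0 < p ω := fun ω hω =>
        ((cond_pos_iff h0 (fun ω => ω ∈ E) True ω).mp hω).1
      rw [r2]
      refine le_trans (CH_mono_cond hE'.nonneg fun ω ν hω hν e => ?_) r1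
      simp only [Prod.mk.injEq] at e ⊢
      obtain ⟨e2, e3, e4, e5⟩ := e
      rw [e1 _ (by omega) ω, e1 _ (by omega) ν] at e2
      have z1 : z ω = z ν := (Prod.ext_iff.mp e5).1
      have pω : 0 < p ω := hqp ω hω
      have pν : 0 < p ν := hqp ν hν
      have t1 := P.zT ω ν pω pν z1
      have t2 : rt F W ω = rt F W ν := (Prod.ext_iff.mp e4).1
      exact ⟨e2, e3, (time_eq F hW t1 t2).1, z1⟩)
    hT hz hR hX hJ hψ hmm (by rw [eE]; exact n1) (by rw [Nat.cast_one, one_mul, eE]; exact n2)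
    (by rw [Nat.cast_one, one_mul, eE]; exact n3)
  refine ⟨fun s => mu s 0, fun s => m1 s 0, fun s a => m2 s 0 a, le_trans ?_ m3⟩
  unfold Pb
  refine Finset.sum_le_sum fun ω _ => ?_
  by_cases h6 : (2 : ℝ) ^ (-(κ₂ * X)) < |gg ω 0 -
      (mu ((adN F c (fun _ : Fin 1 => v) i q w W X mm γ gg H z R).L K ω) 0).eval (rt F W ω)|
  · rw [if_pos h6, if_pos ⟨0, h6⟩]
  · rw [if_neg h6]
    split_ifs
    · exact h0 ω
    · exact le_rfl

end Pool.AVG66
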