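import Pool.Agent.H66.AVG.Rln
import Pool.Agent.H57.AVG.Gde

/-!
# The gradient of `PrN` from the relative gradient

`grdN_of`: from `GrdE` with all places: one moved place `v`, one place `u` whose near code is in the
context and whose gradient is a function `mC` of the context and the time, the other places known by
the context. `grdN_RU`: the same with the correction `RU`.
-/

set_option autoImplicit false

namespace Pool.AVG66

open Finset Real MvPolynomial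
open Pool.Agent.H49.Ent Pool.Agent.H32.Dense Pool.STK Pool.KA Pool.KSAT Pool.K2S Pool.PB Pool.S6C
open Pool.GEN Pool.CHT Pool.CHX Pool.ISO Pool.LA91 Pool.AVG71 Pool.AVG5 Pool.AVG57 Pool.D2F2
open Pool.PB.Trl (rt rt_mem t_rt)
open Pool.D2R (hgt gnh GrdE chs chs_eq)
open Pool.KVA (MI)

variable {m J : ℕ} {F : Fam m J} {c : ℕ → Fin m} {ks n i v u q w W X K N D : ℕ} {γ : ℕ → ℕ}
  {U : ℝ} {B : F.Ω → Prop} {G : ℕ → PtT F → ℕ → MvPolynomial (Option (Fin m)) ℝ}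
  {H : LnT F → ℕ → MvPolynomial (Option (Fin m)) ℝ} {ζ : Type} {z : F.Ω → ζ}
  {R mC : F.Ω → Polynomial ℝ}

/-- **The gradient** for the target minus `R`. -/
theorem grdN_of (E : GrdE F c 0 i ks n q X γ U B G) (hv : v < i) (hu : u < i) (hvu : v ≠ u)
    {u₀ e₁ : ℝ} (hu0 : 0 ≤ u₀) (he1 : 0 ≤ e₁) {g₁ : F.Ω → ℝ}
    (hn : ∀ ω ν, B ω → B ν → F.t ω = F.t ν → z ω = z ν → ∀ l < i, l ≠ v → l ≠ u →
      |hgt F c (G 0) ω l - hgt F c (G 0) ν l| ≤ 2 ^ 2 / 2 ^ (γ l + q) ∧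
      |2 ^ (γ l + q) * (hgt F c (G 0) ω l - hgt F c (G 0) ν l)| ≤ u₀ / 2 ^ X)
    (hnu : ∀ ω ν, B ω → B ν → F.t ω = F.t ν → z ω = z ν →
      |hgt F c (G 0) ω u - hgt F c (G 0) ν u| ≤ 2 ^ 2 / 2 ^ (γ u + q))
    (hR : ∀ ω ν, B ω → B ν → F.t ω = F.t ν → z ω = z ν →
      (R ω).eval (rt F W ω) - (R ν).eval (rt F W ν) =
        g₁ ω * (2 ^ (γ u + q) * (hgt F c (G 0) ω u - hgt F c (G 0) ν u)))
    (hg : ∀ ω, B ω → |gnh F c i γ (G 0) (G n) ω u - g₁ ω| ≤ e₁ / 2 ^ X) {U' : ℝ}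
    (hU' : U + i * (U * u₀) + 4 * e₁ ≤ U') :
    GrdN F c (fun _ : Fin 1 => v) i q W X γ U' B (G 0)
      (fun ω _ => gnh F c i γ (G 0) (G n) ω v) z R (chs F i ks G) (chs F i n G) := by
  have hU := E.U0
  have hX : (0 : ℝ) < 2 ^ X := by positivity
  have hi0 : (0 : ℝ) ≤ i := Nat.cast_nonneg i
  have hUu : 0 ≤ i * (U * u₀) := by positivity
  have hUU : U ≤ U' := by linarith
  -- all heights are near
  have hall : ∀ ω ν, B ω → B ν → F.t ω = F.t ν → z ω = z ν →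
      (∀ j : Fin 1, |hgt F c (G 0) ω v - hgt F c (G 0) ν v| ≤ 2 ^ 2 / 2 ^ (γ v + q)) →
      ∀ l < i, 0 ≤ l → |hgt F c (G 0) ω l - hgt F c (G 0) ν l| ≤ 2 ^ 2 / 2 ^ (γ l + q) := by
    intro ω ν hω hν ht hz hm l hl _
    by_cases h1 : l = v
    · rw [h1]
      exact hm 0
    · by_cases h2 : l = u
      · rw [h2]
        exact hnu ω ν hω hν ht hz
      · exact (hn ω ν hω hν ht hz l hl h1 h2).1
  refine ⟨hU.trans hUU, fun ω hω _ => (E.bm ω hω v hv (Nat.zero_le _)).trans hUU, ?_, ?_, ?_⟩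
  · intro ω ν hω hν ht hz hc hm _
    refine (E.bj ω ν hω hν ht (fun l hl => absurd hl (Nat.not_lt_zero l))
      (hall ω ν hω hν ht hz hm) (chs_eq hc) v hv (Nat.zero_le _)).trans ?_
    exact div_le_div_of_nonneg_right hUU hX.le
  · intro ω ν hω hν ht hz hc hm _
    refine (E.bx ω ν hω hν ht (fun l hl => absurd hl (Nat.not_lt_zero l))
      (hall ω ν hω hν ht hz hm) (chs_eq hc) v hv (Nat.zero_le _)).trans ?_
    exact div_le_div_of_nonneg_right hUU hX.le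
  · intro ω ν hω hν ht hrt hz hc hm
    have h1 := E.nx ω ν hω hν ht (fun l hl => absurd hl (Nat.not_lt_zero l))
      (hall ω ν hω hν ht hz hm) (chs_eq hc)
    rw [Fin.sum_univ_one, hR ω ν hω hν ht hz]
    obtain ⟨f, hf⟩ : ∃ f : ℕ → ℝ, f = fun l => gnh F c i γ (G 0) (G n) ω l *
      (2 ^ (γ l + q) * (hgt F c (G 0) ω l - hgt F c (G 0) ν l)) := ⟨_, rfl⟩
    have hfl : ∀ l, gnh F c i γ (G 0) (G n) ω l *
      (2 ^ (γ l + q) * (hgt F c (G 0) ω l - hgt F c (G 0) ν l)) = f l := fun l => by rw [hf]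
    simp only [hfl] at h1 ⊢
    have hmem : v ∈ Finset.Ico 0 i := Finset.mem_Ico.2 ⟨Nat.zero_le _, hv⟩
    have hmem2 : u ∈ (Finset.Ico 0 i).erase v :=
      Finset.mem_erase.2 ⟨fun h => hvu h.symm, Finset.mem_Ico.2 ⟨Nat.zero_le _, hu⟩⟩
    rw [← Finset.add_sum_erase _ f hmem, ← Finset.add_sum_erase _ f hmem2] at h1
    obtain ⟨S, hS⟩ : ∃ S : ℝ, S = ∑ l ∈ ((Finset.Ico 0 i).erase v).erase u, f l := ⟨_, rfl⟩
    have hSle : |S| ≤ i * (U * u₀) / 2 ^ X := by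
      rw [hS]
      refine (Finset.abs_sum_le_sum_abs _ _).trans ?_
      have h3 : ∀ l ∈ ((Finset.Ico 0 i).erase v).erase u, |f l| ≤ U * u₀ / 2 ^ X := by
        intro l hl
        obtain ⟨l1, l2⟩ := Finset.mem_erase.1 hl
        obtain ⟨l3, l4⟩ := Finset.mem_erase.1 l2
        have l5 := (Finset.mem_Ico.1 l4).2
        rw [hf]
        simp only
        rw [abs_mul]
        have b1 := E.bm ω hω l l5 (Nat.zero_le _)
        have b2 := (hn ω ν hω hν ht hz l l5 l3 l1).2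
        refine (mul_le_mul b1 b2 (abs_nonneg _) hU).trans (le_of_eq ?_)
        ring
      refine (Finset.sum_le_sum h3).trans ?_
      rw [Finset.sum_const, nsmul_eq_mul]
      have hc2 : ((((Finset.Ico 0 i).erase v).erase u).card : ℝ) ≤ i := by
        have h4 : (((Finset.Ico 0 i).erase v).erase u).card ≤ (Finset.Ico 0 i).card :=
          Finset.card_le_card ((Finset.erase_subset _ _).trans (Finset.erase_subset _ _))
        rw [Nat.card_Ico, Nat.sub_zero] at h4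
        exact_mod_cast h4
      refine (mul_le_mul_of_nonneg_right hc2 (by positivity)).trans (le_of_eq ?_)
      ring
    rw [← hS] at h1
    -- the place `u`
    obtain ⟨y, hy⟩ : ∃ y : ℝ, y = 2 ^ (γ u + q) * (hgt F c (G 0) ω u - hgt F c (G 0) ν u) :=
      ⟨_, rfl⟩
    have hy4 : |y| ≤ 4 := by
      have h5 := hnu ω ν hω hν ht hz
      have p : (0 : ℝ) < 2 ^ (γ u + q) := by positivity
      rw [hy, abs_mul, abs_of_pos p]
      rw [le_div_iff₀ p] at h5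
      linarith
    have hfu : f u = gnh F c i γ (G 0) (G n) ω u * y := by
      rw [hf, hy]
    have h6 : |f u - g₁ ω * y| ≤ 4 * e₁ / 2 ^ X := by
      rw [hfu, ← sub_mul, abs_mul]
      refine (mul_le_mul (hg ω hω) hy4 (abs_nonneg _) (by positivity)).trans (le_of_eq ?_)
      ring
    rw [← hy]
    obtain ⟨x, hx⟩ : ∃ x : ℝ, x = 2 ^ (γ i + q) * (hgt F c (G 0) ω i - hgt F c (G 0) ν i) :=
      ⟨_, rfl⟩
    rw [← hx] at h1 ⊢
    have e1 : x - g₁ ω * y - f v = (x - (f v + (f u + S))) + (f u - g₁ ω * y) + S := by ring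
    rw [e1]
    refine (abs_add_le _ _).trans ((add_le_add ((abs_add_le _ _).trans (add_le_add h1 h6))
      hSle).trans ?_)
    rw [← add_div, ← add_div]
    refine div_le_div_of_nonneg_right ?_ hX.le
    linarith

/-- **The gradient** for the target minus `RU`. -/
theorem grdN_RU (E : GrdE F c 0 i ks n q X γ U B G) (hv : v < i) (hu : u < i) (hvu : v ≠ u)
    (hwW : w ≤ W) (hW : W ≤ J) (hH : ∀ s l, (H s l).totalDegree ≤ D)
    (hK : D + 1 ≤ K) (hN : γ u + q + 2 * K ≤ N)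
    (hc : ∀ ω, B ω → G 0 (ptr F J ω) u = H (slam F w ω) u)
    (hz : ∀ ω ν, z ω = z ν → F.T1 W ω = F.T1 W ν ∧ mC ω = mC ν ∧
      cod F w (fun s => H s u) (c u) N 0 K ω = cod F w (fun s => H s u) (c u) N 0 K ν)
    {u₀ e₁ : ℝ} (hu0 : 0 ≤ u₀) (he1 : 0 ≤ e₁)
    (hn : ∀ ω ν, B ω → B ν → F.t ω = F.t ν → z ω = z ν → ∀ l < i, l ≠ v → l ≠ u →
      |hgt F c (G 0) ω l - hgt F c (G 0) ν l| ≤ 2 ^ 2 / 2 ^ (γ l + q) ∧
      |2 ^ (γ l + q) * (hgt F c (G 0) ω l - hgt F c (G 0) ν l)| ≤ u₀ / 2 ^ X)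
    (hg : ∀ ω, B ω → |gnh F c i γ (G 0) (G n) ω u - (mC ω).eval (rt F W ω)| ≤ e₁ / 2 ^ X)
    {U' : ℝ} (hU' : U + i * (U * u₀) + 4 * e₁ ≤ U') :
    GrdN F c (fun _ : Fin 1 => v) i q W X γ U' B (G 0)
      (fun ω _ => gnh F c i γ (G 0) (G n) ω v) z (RU F c u q w W K N γ H mC)
      (chs F i ks G) (chs F i n G) := by
  refine grdN_of E hv hu hvu hu0 he1 hn (fun ω ν hω hν ht hzz => ?_)
    (fun ω ν hω hν ht hzz => ?_) hg hU'
  · obtain ⟨-, -, z3⟩ := hz ω ν hzz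
    have h1 := hgt_u (γ := γ) (q := q) hwW hW hH hK hN hc hω hν (T_of_t F ht) z3
    refine h1.trans (div_le_div_of_nonneg_right (by norm_num) (by positivity))
  · obtain ⟨z1, z2, z3⟩ := hz ω ν hzz
    have h1 := RU_val (q := q) (γ := γ) hwW hW z1 (rt_of F hW (T_of_t F ht)) z2 z3
    rw [h1, hgt_ojet (hwW.trans hW) (hc ω hω), hgt_ojet (hwW.trans hW) (hc ν hν)]

end Pool.AVG66
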