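import Pool.Agent.H66.AVG.Adn

/-!
# `AD.Hyp` for a corrected path of the target

`PrN`: the inputs on one event and one law as in `PrX`, for the path of the target minus `R`.
`PrN.hyp`: `AD.Hyp` for `adN`.
-/

set_option autoImplicit false

namespace Pool.AVG66

open Finset Real MvPolynomial
open Pool.Agent.H49.Ent Pool.Agent.H32.Dense Pool.STK Pool.KA Pool.KSAT Pool.K2S Pool.PB Pool.S6C
open Pool.GEN Pool.CHT Pool.CHX Pool.ISO Pool.LA91 Pool.AVG71 Pool.AVG5 Pool.AVG57 Pool.D2F2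
open Pool.PB.Trl (rt rt_mem t_rt)
open Pool.D2R (hgt)
open Pool.KVA (MI)
open Pool.KAF (rs Pr)
open Pool.OWN68 (CH_chain2)

variable {m J : ℕ}

/-- **The inputs** on one event `B` and for one law `p`, for the path of the target minus `R`. `Rj`, `Rx`: the records of the
balls `j`, `x`; `Cj`, `Cx`: their charts; `zw`: the record of `w`; `Yc`: the side information; `z`: the
context, a function of the line and the window. -/
structure PrN (F : Fam m J) (c : ℕ → Fin m) {k : ℕ} (mv : Fin k → ℕ) (i q w W X mm D K : ℕ)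
    (γ : ℕ → ℕ) (B : F.Ω → Prop) (G₀ : PtT F → ℕ → MvPolynomial (Option (Fin m)) ℝ)
    (H : LnT F → ℕ → MvPolynomial (Option (Fin m)) ℝ) (gg : F.Ω → Fin k → ℝ)
    {ζ ζ' υ' φ' χ₁ χ₂ ρ₁ ρ₂ υ : Type} (z : F.Ω → ζ) (R : F.Ω → Polynomial ℝ) (zw : F.Ω → ζ') (Yc : F.Ω → υ')
    (Yf : F.Ω → φ') (Cj : F.Ω → χ₁) (Cx : F.Ω → χ₂) (Rj : F.Ω → ρ₁) (Rx : F.Ω → ρ₂) (V : F.Ω → υ)
    (p : F.Ω → ℝ) (Nf Nn Nx Nu Nv : Fin k → ℕ → ℝ) (Mf Mn : ℕ → ℝ) (U UR Fv e : ℝ) : Prop where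
  law : IsLaw p
  sup : ∀ ω, 0 < p ω → B ω
  wW : w ≤ W
  WJ : W ≤ J
  deg : ∀ s l, (H s l).totalDegree ≤ D
  DK : D + 1 ≤ K
  KX : (K : ℝ) ≤ 2 ^ (X + mm)
  cls : ClsG F mv i w B G₀ H
  grd : GrdN F c mv i q W X γ U B G₀ gg z R Cj Cx
  dR : ∀ ω, 0 < p ω → (R ω).natDegree ≤ K
  bR : ∀ ω, 0 < p ω → ∀ a, |(R ω).coeff a| ≤ UR
  UR0 : 0 ≤ UR
  cR : CH p (fun ω (a : Fin (K + 1)) => ⌊(2 : ℝ) ^ X * (R ω).coeff a⌋)
    (fun ω => ((jetm F c mv w H Nf ω, Yf ω), (rt F W ω, z ω))) ≤ e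
  mU : U + 1 ≤ 2 ^ mm
  zT : Det p z (F.T1 W)
  czy : CH p (fun ω => (rt F W ω, z ω)) (fun ω => (zw ω, Yc ω)) ≤ e
  cyz : CH p (fun ω => (zw ω, Yc ω)) (fun ω => (rt F W ω, z ω)) ≤ e
  ti : MI p (rt F W) ((adN F c mv i q w W X mm γ gg H z R).L K)
    ((adN F c mv i q w W X mm γ gg H z R).g K) ≤ e
  mj : MI p Rj (fun ω => ((jetm F c mv w H Nf ω, Yf ω), pr2 F c w H i Mf ω))
    (fun ω => ((jetm F c mv w H Nn ω, pr2 F c w H i Mn ω), (zw ω, Yc ω))) ≤ e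
  mx : MI p Rx (fun ω => (jetm F c mv w H Nf ω, Yf ω))
    (fun ω => (jetm F c mv w H Nx ω, (zw ω, Yc ω))) ≤ e
  chj : CH p Cj Rj ≤ e
  chx : CH p Cx Rx ≤ e
  zx : CH p zw Rx ≤ e
  n0 : ∀ j, Nn j 0 * J ≤ (γ (mv j) + q : ℕ)
  n1 : ∀ j, Nn j 1 * J + W ≤ (γ (mv j) + q + (X + mm) : ℕ)
  x0 : ∀ j, Nx j 0 * J ≤ (γ (mv j) + q : ℕ)
  x1 : ∀ j, Nx j 1 * J + W ≤ (γ (mv j) + q + (X + mm) : ℕ)
  u0 : ∀ j, Nu j 0 * J ≤ (γ (mv j) + q : ℕ)
  u1 : ∀ j, Nu j 1 * J + W ≤ (γ (mv j) + q + (X + mm) : ℕ)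
  m0 : Mn 0 * J ≤ (γ i + q : ℕ)
  m1 : Mn 1 * J + W ≤ (γ i + q : ℕ)
  mf : ((γ i + q + X : ℕ) : ℝ) ≤ Mf 0 * J
  ac : CH p ((adG F c mv i q w W X mm γ gg H z).ac K) (fun ω =>
    (jetm F c mv w H Nf ω, (rt F W ω, z ω))) ≤ e
  va : CH p (fun ω => ((adG F c mv i q w W X mm γ gg H z).v K ω).2) (fun ω =>
    (jetm F c mv w H Nv ω, (rt F W ω, z ω))) ≤ e
  dj : CH p (cod F w (fun s => H s i) (c i) (γ i + q + X) 1 K)
    (fun ω => ((jetm F c mv w H Nf ω, Yf ω), (zw ω, Yc ω))) ≤ e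
  jt : CH p (cod F w (fun s => H s i) (c i) (γ i + q) 0 K)
    (fun ω => (jetm F c mv w H Nu ω, (Rx ω, Yc ω))) ≤ e
  vf : Fv - e ≤ CH p V (fun ω => (jetm F c mv w H Nv ω, (Rx ω, Yc ω)))

section

variable {F : Fam m J} {c : ℕ → Fin m} {k : ℕ} {mv : Fin k → ℕ} {i q w W X mm D K : ℕ} {γ : ℕ → ℕ}
  {B : F.Ω → Prop} {G₀ : PtT F → ℕ → MvPolynomial (Option (Fin m)) ℝ}
  {H : LnT F → ℕ → MvPolynomial (Option (Fin m)) ℝ} {gg : F.Ω → Fin k → ℝ}
  {ζ ζ' υ' φ' χ₁ χ₂ ρ₁ ρ₂ υ : Type} {z : F.Ω → ζ} {zw : F.Ω → ζ'} {Yc : F.Ω → υ'}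
  {Yf : F.Ω → φ'} {Cj : F.Ω → χ₁} {Cx : F.Ω → χ₂} {Rj : F.Ω → ρ₁} {Rx : F.Ω → ρ₂} {V : F.Ω → υ} {M : F.Ω → ℤ}
  {p : F.Ω → ℝ} {Nf Nn Nx Nu Nv : Fin k → ℕ → ℝ} {Mf Mn : ℕ → ℝ} {U UR Fv e : ℝ}
  {R : F.Ω → Polynomial ℝ}

/-- **`AD.Hyp` for `adN`.** -/
theorem PrN.hyp (P : PrN F c mv i q w W X mm D K γ B G₀ H gg z R zw Yc Yf Cj Cx Rj Rx V p Nf Nn
      Nx Nu Nv Mf Mn U UR Fv e) {π₀ Ur Bq eV : ℝ} {h : ℕ} (hB0 : 0 ≤ Bq) (heV : 0 ≤ eV)
    (hvb : ∀ q' : F.Ω → ℝ, IsLaw q' → (∀ ω, 0 < q' ω → 0 < p ω) →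
      CH q' V (fun ω => ((adN F c mv i q w W X mm γ gg H z R).T ω,
        (adN F c mv i q w W X mm γ gg H z R).g K ω)) ≤ Fv + eV)
    (hvy : CH p V (fun ω => ((adN F c mv i q w W X mm γ gg H z R).Y K ω,
        (rt F W ω, (adN F c mv i q w W X mm γ gg H z R).g K ω))) ≤
      Fv + eV - k * X * Real.log 2)
    (hqv : ∀ ω ω', 0 < p ω → 0 < p ω' → V ω = V ω' →
      (adN F c mv i q w W X mm γ gg H z R).T ω = (adN F c mv i q w W X mm γ gg H z R).T ω' →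
      (adN F c mv i q w W X mm γ gg H z R).g K ω = (adN F c mv i q w W X mm γ gg H z R).g K ω' →
      |((adN F c mv i q w W X mm γ gg H z R).Q ω - M ω) -
        ((adN F c mv i q w W X mm γ gg H z R).Q ω' - M ω')| ≤ Bq)
    (hrow : ∀ j : ℕ, (j + 1) * h ≤ X → ∀ E : Set F.Ω, π₀ ≤ Pr p E →
      CH (rs p E) (fun ω => M ω / 2 ^ (X - (j + 1) * h))
        (fun ω => (M ω / 2 ^ (X - j * h), (V ω,
          ((adN F c mv i q w W X mm γ gg H z R).T ω,
            (adN F c mv i q w W X mm γ gg H z R).g K ω)))) ≤ Ur) :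
    (adN F c mv i q w W X mm γ gg H z R).Hyp K p Rj Rx
      (fun ω => (jetm F c mv w H Nn ω, pr2 F c w H i Mn ω))
      (jetm F c mv w H Nx)
      (fun ω => ((jetm F c mv w H Nf ω, Yf ω), pr2 F c w H i Mf ω))
      (fun ω => (jetm F c mv w H Nf ω, Yf ω)) V M (Fv + eV) (6 * e + cE0 k K U + 2 * cN K UR + eV) Bq Ur π₀ h := by
  have hp := P.law
  have h0 := hp.nonneg
  have hwW := P.wW
  have hW := P.WJ
  have he : 0 ≤ e := (CH_nonneg h0 _ _).trans P.chj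
  have hU := P.grd.U0
  have hcJ := cJ_nonneg K
  have hcA := cA_nonneg K
  have hl5 : 0 ≤ Real.log 5 := Real.log_nonneg (by norm_num)
  have hlU : 0 ≤ Real.log (2 * (U + 1) + 1) := Real.log_nonneg (by linarith)
  have hkU : 0 ≤ k * Real.log (2 * (U + 1) + 1) := by positivity
  have hlN : 0 ≤ Real.log (2 * (U + 4 * k + 2 * ((K + 1) * (k + 1)) + 1) + 1) := by
    refine Real.log_nonneg ?_
    have : (0 : ℝ) ≤ 4 * k + 2 * ((K + 1) * (k + 1)) := by positivity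
    linarith
  have hkJ : 0 ≤ (2 * (k : ℝ) + 3) * cJ K := by positivity
  have hk2 : 0 ≤ 2 * (k : ℝ) * cJ K := by positivity
  have hkJ' : (2 * (k : ℝ) + 3) * cJ K = 2 * k * cJ K + 3 * cJ K := by ring
  have hE0 : cE0 k K U = cA K + (2 * k + 3) * cJ K + Real.log 5 +
    k * Real.log (2 * (U + 1) + 1) +
    Real.log (2 * (U + 4 * k + 2 * ((K + 1) * (k + 1)) + 1) + 1) := rfl
  have hN0 := cN_nonneg (K := K) P.UR0
  have hPg : Pth (adG F c mv i q w W X mm γ gg H z) K p := adG_pth hp P.deg P.DK hW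
  have hPth : Pth (adN F c mv i q w W X mm γ gg H z R) K p := adN_pth hPg P.dR
  have hdeg : ∀ s, (dv w (fun s (_ : Fin m) => H s i) (c i) s).natDegree ≤ K :=
    fun s => (natDegree_dv w (G := fun s (_ : Fin m) => H s i) (fun s _ => P.deg s _) _
      s).trans P.DK
  have hth : ∀ ω, 0 < p ω → 0 ≤ (adN F c mv i q w W X mm γ gg H z R).th ω ∧
    (adN F c mv i q w W X mm γ gg H z R).th ω < 1 := hPth.th
  have hA := hPth.dA
  have hPd := hPth.dP
  have hbm : ∀ ω, B ω → ∀ j, |(adN F c mv i q w W X mm γ gg H z R).bb ω j| ≤ U + 1 :=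
    fun ω hω j => adN_bm P.grd hω j
  have f_nc : ∀ (𝓦 : Type) (Z : F.Ω → 𝓦), Det p Z (F.T1 W) → ∀ e e₂ : ℝ,
      CH p (cod F w (fun s => H s i) (c i) (γ i + q + X) 1 K) Z ≤ e →
      CH p (fun ω (a : Fin (K + 1)) => ⌊(2 : ℝ) ^ X * (R ω).coeff a⌋) Z ≤ e₂ →
      CH p (fun ω (a : Fin K) => (adN F c mv i q w W X mm γ gg H z R).nc K ω a.succ) Z ≤
        e + cA K + e₂ + cN K UR := fun 𝓦 Z hZ e e₂ he he₂ => nc_of hp P.UR0 Z
      (CH_nc (c := c) (k₀ := i) (k := 0) (n := 0) (q := q)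
      (X := X) (mm := mm) (γ := γ) (G := fun _ _ _ => 0) (zw := fun _ => ()) hp hwW hW hdeg Z hZ
        he) he₂
  have f_ncd : ∀ (𝓦 : Type) (Z : F.Ω → 𝓦), Det p Z (F.T1 W) → ∀ e : ℝ,
      CH p (cod F w (fun s => H s i) (c i) (γ i + q) 0 K) Z ≤ e →
      CH p (fun ω (a : Fin (K + 1)) => (adN F c mv i q w W X mm γ gg H z R).nc K ω a / 2 ^ X) Z ≤
        e + cA K + cN K UR := fun 𝓦 Z hZ e he => ncd_of hp P.UR0 P.bR Z
      (CH_ncd (c := c) (k₀ := i) (k := 0) (n := 0) (q := q)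
      (X := X) (mm := mm) (γ := γ) (G := fun _ _ _ => 0) (zw := fun _ => ()) hp hwW hW hdeg Z hZ
        he)
  have f_val : ∀ (𝓦 : Type) (Z : F.Ω → 𝓦), Det p Z (pr2 F c w H i Mf) → Det p Z (rt F W) →
      ∀ e₂ : ℝ, CH p (fun ω (a : Fin (K + 1)) => ⌊(2 : ℝ) ^ X * (R ω).coeff a⌋) Z ≤ e₂ →
      CH p (fun ω => ⌊(2 : ℝ) ^ X * ((adN F c mv i q w W X mm γ gg H z R).P ω).eval
        ((adN F c mv i q w W X mm γ gg H z R).th ω)⌋) Z ≤ Real.log 5 + e₂ + cN K UR :=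
      fun 𝓦 Z hZ hZ' e₂ he₂ => val_of hp P.UR0 hPth.th P.dR Z hZ'
      (CH_val (c := c) (k₀ := i) (k := 0) (n := 0) (q := q) (X := X) (mm := mm) (γ := γ)
      (G := fun _ _ _ => 0) (H := H) (zw := fun _ => ()) hp hwW hW Z P.mf hZ) he₂
  have jn : CH p (jetm F c mv w H Nn) (fun ω => ((adN F c mv i q w W X mm γ gg H z R).th ω,
      (adN F c mv i q w W X mm γ gg H z R).v K ω)) ≤ 2 * k * cJ K :=
    jetm_v (c := c) (mv := mv) (i := i) (q := q) (X := X) (mm := mm) (γ := γ) (gg := gg)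
    (z := z) hp P.deg P.DK hwW hW P.n0 P.n1
  have jx : CH p (jetm F c mv w H Nx) (fun ω => ((adN F c mv i q w W X mm γ gg H z R).th ω,
      (adN F c mv i q w W X mm γ gg H z R).v K ω)) ≤ 2 * k * cJ K :=
    jetm_v (c := c) (mv := mv) (i := i) (q := q) (X := X) (mm := mm) (γ := γ) (gg := gg)
    (z := z) hp P.deg P.DK hwW hW P.x0 P.x1
  have ju : CH p (jetm F c mv w H Nu) (fun ω => ((adN F c mv i q w W X mm γ gg H z R).th ω,
      (adN F c mv i q w W X mm γ gg H z R).v K ω)) ≤ 2 * k * cJ K :=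
    jetm_v (c := c) (mv := mv) (i := i) (q := q) (X := X) (mm := mm) (γ := γ) (gg := gg)
    (z := z) hp P.deg P.DK hwW hW P.u0 P.u1
  have pn : CH p (pr2 F c w H i Mn) (fun ω => ((adN F c mv i q w W X mm γ gg H z R).th ω,
      (adN F c mv i q w W X mm γ gg H z R).g K ω)) ≤ 2 * cJ K + cN K UR := by
    have a1 := prG_g (c := c) (mv := mv) (i := i) (q := q) (X := X) (mm := mm) (γ := γ)
      (gg := gg) (z := z) hp P.deg P.DK hwW hW P.m0 P.m1
    have a2 := g_few (c := c) (mv := mv) (i := i) (q := q) (w := w) (W := W) (X := X) (mm := mm)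
      (γ := γ) (gg := gg) (H := H) (z := z) (K := K) hp P.UR0 P.bR
    have a3 := CH_le_add h0 (pr2 F c w H i Mn) ((adG F c mv i q w W X mm γ gg H z).g K)
      (fun ω => ((adN F c mv i q w W X mm γ gg H z R).th ω,
        (adN F c mv i q w W X mm γ gg H z R).g K ω))
    have a4 : CH p ((adG F c mv i q w W X mm γ gg H z).g K)
        (fun ω => ((adN F c mv i q w W X mm γ gg H z R).th ω,
          (adN F c mv i q w W X mm γ gg H z R).g K ω)) ≤ CH p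
        ((adG F c mv i q w W X mm γ gg H z).g K) ((adN F c mv i q w W X mm γ gg H z R).g K) :=
      CH_mono_cond h0 fun _ _ _ _ e => (Prod.ext_iff.mp e).2
    have a5 : CH p (pr2 F c w H i Mn) (fun ω => ((adG F c mv i q w W X mm γ gg H z).g K ω,
        ((adN F c mv i q w W X mm γ gg H z R).th ω,
          (adN F c mv i q w W X mm γ gg H z R).g K ω))) ≤ CH p (pr2 F c w H i Mn)
        (fun ω => ((adG F c mv i q w W X mm γ gg H z).th ω,
          (adG F c mv i q w W X mm γ gg H z).g K ω)) :=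
      CH_mono_cond h0 fun _ _ _ _ e => Prod.ext (Prod.ext_iff.mp (Prod.ext_iff.mp e).2).1
        (Prod.ext_iff.mp e).1
    linarith
  have hzz : ∀ ω, (adN F c mv i q w W X mm γ gg H z R).z ω = z ω := fun _ => rfl
  have hbv : ∀ (χ : Type) (Cc : F.Ω → χ) (_ : ∀ ω ν, B ω → B ν → F.t ω = F.t ν → z ω = z ν →
      Cc ω = Cc ν → (∀ j, |hgt F c G₀ ω (mv j) - hgt F c G₀ ν (mv j)| ≤
        2 ^ 2 / 2 ^ (γ (mv j) + q)) → ∀ j, |gg ω j - gg ν j| ≤ U / 2 ^ X) (ρ : Type)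
      (R' : F.Ω → ρ), CH p (adN F c mv i q w W X mm γ gg H z R).bb (fun ω => (R' ω,
      ((adN F c mv i q w W X mm γ gg H z R).th ω,
        (adN F c mv i q w W X mm γ gg H z R).v K ω))) ≤
      CH p Cc R' + k * Real.log (2 * (U + 1) + 1) := fun χ Cc hb ρ R' =>
    adG_bb_v (i := i) (mm := mm) (gg := gg) hwW hW P.cls hU hb hp P.sup P.zT hth
    hA P.KX R'
  have hNx := adN_Nx hwW hW P.cls P.grd hp P.sup P.zT hPth P.KX P.mU Rx
  have hcR := P.cR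
  have hti := P.ti
  have hac : CH p ((adN F c mv i q w W X mm γ gg H z R).ac K) (fun ω =>
      ((jetm F c mv w H Nf ω, Yf ω), (rt F W ω, z ω))) ≤ e := by
    refine le_trans (CH_mono_cond h0 fun ω ν _ _ e => ?_) P.ac
    obtain ⟨e1, e2⟩ := Prod.ext_iff.mp e
    exact Prod.ext (Prod.ext_iff.mp e1).1 e2
  have hva : CH p (fun ω => ((adN F c mv i q w W X mm γ gg H z R).v K ω).2) (fun ω =>
      (jetm F c mv w H Nv ω, (rt F W ω, z ω))) ≤ e := P.va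
  obtain ⟨d, hd⟩ : ∃ d, d = adN F c mv i q w W X mm γ gg H z R := ⟨_, rfl⟩
  have hX : d.X = X := by rw [hd]; rfl
  have hm : d.m = mm := by rw [hd]; rfl
  have htt : rt F W = d.th := by rw [hd]; rfl
  have hdz : z = d.z := by rw [hd]; rfl
  have hczy := P.czy
  have hcyz := P.cyz
  have hT1 : Det p d.z (F.T1 W) := by rw [← hdz]; exact P.zT
  simp only [← hd] at *
  rw [htt] at hti hac hva hvy hczy hcyz hcR f_val
  simp only [hdz] at hac hva hczy hcyz hcR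
  have hgv : Det p (fun ω => (d.th ω, d.g K ω)) (fun ω => (d.th ω, d.v K ω)) :=
    fun ω ν a b e => Prod.ext (Prod.ext_iff.mp e).1
      (AD.det_wv p ω ν a b (AD.det_gw p ω ν a b (Prod.ext_iff.mp e).2))
  have hwv : Det p (fun ω => (d.th ω, d.w K ω)) (fun ω => (d.th ω, d.v K ω)) :=
    fun ω ν a b e => Prod.ext (Prod.ext_iff.mp e).1
      (AD.det_wv p ω ν a b (Prod.ext_iff.mp e).2)
  -- the higher codes of the target from the far digits
  have hnc : CH p (fun ω (a : Fin K) => d.nc K ω a.succ)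
      (fun ω => ((jetm F c mv w H Nf ω, Yf ω), (d.th ω, d.z ω))) ≤
        (e + e) + cA K + e + cN K UR := by
    refine f_nc _ _ (fun ω ν a b e => hT1 ω ν a b ?_) (e + e) e ?_ hcR
    · exact (Prod.ext_iff.mp (Prod.ext_iff.mp e).2).2
    · refine CH_via h0 _ (fun ω => (zw ω, Yc ω)) (W' := fun ω =>
        ((jetm F c mv w H Nf ω, Yf ω), (zw ω, Yc ω))) (le_trans (CH_mono_cond h0
          fun ω ν _ _ e => (Prod.ext_iff.mp e).2) hcyz) P.dj (fun ω ν a b e => ?_)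
      obtain ⟨e1, e2⟩ := Prod.ext_iff.mp e
      exact Prod.ext (Prod.ext_iff.mp e2).1 e1
  refine
    { law := hp
      th := hth
      dP := hPd
      dA := hA
      bm := fun ω hω j => by
        rw [hm]
        exact (hbm ω (P.sup ω hω) j).trans P.mU
      ti := by linarith
      mj := ?_
      fj := ?_
      Lj := ?_
      bbj := ?_
      mx := ?_
      fx := ?_
      Lx := ?_
      bbx := ?_
      jt := ?_
      Nx := ?_
      vf := ?_
      vb := ?_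
      vy := ?_
      B0 := hB0
      qv := ?_
      row := ?_ }
  · -- mj
    have e1 := MI_few h0 Rj
        (fun ω => ((jetm F c mv w H Nf ω, Yf ω), pr2 F c w H i Mf ω))
        (W := fun ω => ((jetm F c mv w H Nn ω, pr2 F c w H i Mn ω), (d.th ω, d.z ω)))
        (W' := fun ω => ((jetm F c mv w H Nn ω, pr2 F c w H i Mn ω), (zw ω, Yc ω)))
        (CH_pair_ctx h0 hczy) (CH_pair_ctx h0 hcyz)
    have := P.mj
    linarith
  · -- fj
    have h1 := CH_subadd h0 (jetm F c mv w H Nn) (pr2 F c w H i Mn) (fun ω => (d.th ω, d.g K ω))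
    have h2 : CH p (jetm F c mv w H Nn) (fun ω => (d.th ω, d.g K ω)) ≤
        CH p (jetm F c mv w H Nn) (fun ω => (d.th ω, d.v K ω)) := CH_mono_cond h0 hgv
    linarith
  · -- Lj
    have hN : CH p (fun ω => ⌊(2 : ℝ) ^ d.X * (d.P ω).eval (d.th ω)⌋)
        (fun ω => (((jetm F c mv w H Nf ω, Yf ω), pr2 F c w H i Mf ω),
          ((jetm F c mv w H Nn ω, pr2 F c w H i Mn ω), (d.th ω, d.z ω)))) ≤
        Real.log 5 + e + cN K UR := by
      rw [hX]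
      refine f_val _ _ (fun ω ν a b e => (Prod.ext_iff.mp (Prod.ext_iff.mp e).1).2)
        (fun ω ν a b e => (Prod.ext_iff.mp (Prod.ext_iff.mp (Prod.ext_iff.mp e).2).2).1) e
        (le_trans (CH_mono_cond h0 fun ω ν a b e => ?_) hcR)
      exact Prod.ext (Prod.ext_iff.mp (Prod.ext_iff.mp e).1).1
        (Prod.ext_iff.mp (Prod.ext_iff.mp e).2).2
    have h1 := Lj_of hPth hac hnc hN
    linarith
  · -- bbj
    have h1 := hbv _ Cj P.grd.bj _ Rj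
    have h2 : CH p d.bb (fun ω => (Rj ω, (d.th ω, d.g K ω))) ≤
        CH p d.bb (fun ω => (Rj ω, (d.th ω, d.v K ω))) := CH_mono_cond h0 fun ω ν a b e => by
      obtain ⟨e1, e2⟩ := Prod.ext_iff.mp e
      exact Prod.ext e1 (hgv ω ν a b e2)
    have := P.chj
    linarith
  · -- mx
    have e1 := MI_few h0 Rx (fun ω => (jetm F c mv w H Nf ω, Yf ω))
        (W := fun ω => (jetm F c mv w H Nx ω, (d.th ω, d.z ω)))
        (W' := fun ω => (jetm F c mv w H Nx ω, (zw ω, Yc ω)))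
        (CH_pair_ctx h0 hczy) (CH_pair_ctx h0 hcyz)
    have := P.mx
    linarith
  · -- fx
    have h2 : CH p (jetm F c mv w H Nx) (fun ω => (d.th ω, d.w K ω)) ≤
        CH p (jetm F c mv w H Nx) (fun ω => (d.th ω, d.v K ω)) := CH_mono_cond h0 hwv
    linarith
  · -- Lx
    have h1 := Lx_of (n := jetm F c mv w H Nx) h0 hac hnc
    linarith
  · -- bbx
    have h1 := hbv _ Cx P.grd.bx _ Rx
    have h2 : CH p d.bb (fun ω => (Rx ω, (d.th ω, d.w K ω))) ≤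
        CH p d.bb (fun ω => (Rx ω, (d.th ω, d.v K ω))) := CH_mono_cond h0 fun ω ν a b e => by
      obtain ⟨e1, e2⟩ := Prod.ext_iff.mp e
      exact Prod.ext e1 (hwv ω ν a b e2)
    have := P.chx
    linarith
  · -- jt
    have hYv : CH p Yc (fun ω => (jetm F c mv w H Nu ω, (Rx ω, (d.th ω, d.v K ω)))) ≤ e := by
      refine le_trans ?_ hcyz
      have a1 : CH p Yc (fun ω => (jetm F c mv w H Nu ω, (Rx ω, (d.th ω, d.v K ω)))) ≤
          CH p (fun ω => (zw ω, Yc ω))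
            (fun ω => (jetm F c mv w H Nu ω, (Rx ω, (d.th ω, d.v K ω)))) :=
        CH_mono_left h0 fun ω ν _ _ e => (Prod.ext_iff.mp (Prod.ext_iff.mp e).1).2
      refine a1.trans (CH_mono_cond h0 fun ω ν _ _ e => ?_)
      obtain ⟨_, e2⟩ := Prod.ext_iff.mp e
      obtain ⟨_, e4⟩ := Prod.ext_iff.mp e2
      obtain ⟨e5, e6⟩ := Prod.ext_iff.mp e4
      exact Prod.ext e5 (Prod.ext_iff.mp e6).1
    have h1 : CH p (cod F w (fun s => H s i) (c i) (γ i + q) 0 K)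
        (fun ω => (Rx ω, (d.th ω, d.v K ω))) ≤ 2 * k * cJ K + (e + e) := by
      refine CH_via h0 _ (jetm F c mv w H Nu) (W' := fun ω =>
        (jetm F c mv w H Nu ω, (Rx ω, (d.th ω, d.v K ω)))) (le_trans (CH_mono_cond h0
          fun ω ν _ _ e => (Prod.ext_iff.mp e).2) ju) ?_ (fun ω ν a b e => e)
      refine CH_via h0 _ Yc (W' := fun ω => (jetm F c mv w H Nu ω, (Rx ω, Yc ω))) hYv P.jt
        (fun ω ν a b e => ?_)
      obtain ⟨e1, e2⟩ := Prod.ext_iff.mp e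
      obtain ⟨e3, e4⟩ := Prod.ext_iff.mp e2
      exact Prod.ext e3 (Prod.ext (Prod.ext_iff.mp e4).1 e1)
    have h2 := f_ncd _ _ (fun ω ν a b e => hT1 ω ν a b
      (Prod.ext_iff.mp (Prod.ext_iff.mp (Prod.ext_iff.mp e).2).2).1) _ h1
    rw [← hX] at h2
    linarith
  · -- Nx
    have := P.chx
    linarith
  · -- vf
    obtain ⟨W', hW'⟩ : ∃ W' : F.Ω → _, W' = fun ω =>
        (jetm F c mv w H Nv ω, (Rx ω, Yc ω)) := ⟨_, rfl⟩
    have h1 := P.vf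
    rw [← hW'] at h1
    obtain ⟨E, hE⟩ : ∃ E : F.Ω → _, E = fun ω => ((d.th ω, d.z ω), (d.v K ω).2) := ⟨_, rfl⟩
    have h2 := CH_le_add h0 V (fun ω => (zw ω, E ω)) W'
    have h3 : CH p (fun ω => (zw ω, E ω)) W' ≤ e + (e + e) := by
      have a1 := CH_subadd h0 zw E W'
      have a1' : CH p (fun ω => (zw ω, E ω)) W' = CH p zw W' + CH p E (fun ω => (zw ω, W' ω)) :=
        CH_chain2 h0 zw E W'
      have a3 : CH p zw W' ≤ CH p zw Rx := CH_mono_cond h0 fun ω ν _ _ e => by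
        rw [hW'] at e
        exact (Prod.ext_iff.mp (Prod.ext_iff.mp e).2).1
      have a4 : CH p E (fun ω => (zw ω, W' ω)) = CH p (fun ω => (d.th ω, d.z ω))
          (fun ω => (zw ω, W' ω)) + CH p (fun ω => (d.v K ω).2) (fun ω => ((d.th ω, d.z ω),
            (zw ω, W' ω))) := by
        rw [hE]
        exact CH_chain2 h0 (fun ω => (d.th ω, d.z ω)) (fun ω => (d.v K ω).2)
          (fun ω => (zw ω, W' ω))
      have a5 : CH p (fun ω => (d.th ω, d.z ω)) (fun ω => (zw ω, W' ω)) ≤ e := by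
        refine le_trans (CH_mono_cond h0 fun ω ν a b e => ?_) hczy
        obtain ⟨e1, e2⟩ := Prod.ext_iff.mp e
        rw [hW'] at e2
        exact Prod.ext e1 (Prod.ext_iff.mp (Prod.ext_iff.mp e2).2).2
      have a6 : CH p (fun ω => (d.v K ω).2) (fun ω => ((d.th ω, d.z ω), (zw ω, W' ω))) ≤ e := by
        refine le_trans (CH_mono_cond h0 fun ω ν a b e => ?_) hva
        obtain ⟨e1, e2⟩ := Prod.ext_iff.mp e
        obtain ⟨_, e4⟩ := Prod.ext_iff.mp e2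
        rw [hW'] at e4
        exact Prod.ext (Prod.ext_iff.mp e4).1 e1
      have := P.zx
      linarith
    have h4 : CH p V (fun ω => ((zw ω, E ω), W' ω)) ≤
        CH p V (fun ω => (Rx ω, (d.th ω, d.v K ω))) :=
      CH_mono_cond h0 fun ω ν a b e => by
        obtain ⟨e1, e2⟩ := Prod.ext_iff.mp e
        obtain ⟨_, e4⟩ := Prod.ext_iff.mp e1
        rw [hE] at e4
        obtain ⟨e5, e6⟩ := Prod.ext_iff.mp e4
        obtain ⟨e7, e8⟩ := Prod.ext_iff.mp e5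
        rw [hW'] at e2
        exact Prod.ext (Prod.ext_iff.mp (Prod.ext_iff.mp e2).2).1
          (Prod.ext e7 (Prod.ext e8 e6))
    linarith
  · -- vb
    exact hvb
  · -- vy
    rw [hX]
    linarith
  · -- qv
    exact hqv
  · -- row
    rw [hX]
    exact hrow

end

end Pool.AVG66
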